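import Pool.Agent.U154.MD.Mil
import Pool.Agent.U154.UT.Cg
import Pool.Agent.U154.BE.Cbe

/-!
Exact asymptotics of the tails on the cylinder in the range of moderate deviations.
-/

set_option autoImplicit false

namespace Pool.Agent.U154.MD

open MeasureTheory Real Filter Topology H974 Finset
open Pool.Agent.H863R2.NL (EN IsPs cN vN mu mu_nonneg fN EN_mul EN_const)
open Pool.Agent.H450R4.NL (Ph qt tilt_coef)
open Pool.Agent.W819.EN (dL nuc)
open Pool.Agent.U154.UT (Tilts lc Zc Zc_eq mx EN_fsum EN_mono_mx wt_ind cyl_llt V_bd Lm cN_pos' vN_pos' x0)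
open Pool.Agent.U154.BE (gd exp_sqrt)

theorem core {ε D : ℝ} (hε : 0 < ε) (hD : 0 ≤ D) : ∃ δ e L1 : ℝ, 0 < δ ∧ δ ≤ 1 ∧ 0 < e ∧ 1 ≤ L1 ∧
    ∀ L, L1 ≤ L → ∀ η, 0 < η → η ≤ δ → 2 ≤ η * √(vN * L) → ∀ V, |V - vN * L| ≤ D * (1 + η * L) →
    ∀ s, |s| ≤ D → ∀ (a : ℕ → ℝ) (N : ℕ), (∀ j < N, |a j - gd (-s) V j| ≤ e / √V) →
    0 ≤ N + s → exp (-(η * N) - (N + s) ^ 2 / (2 * V)) ≤ 1 / √V →
    |∑ j ∈ Finset.range N, exp (-(η * j)) * a j - Mil (η * √(vN * L))| ≤
      ε * Mil (η * √(vN * L)) := by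
  have hv := vN_pos'
  have hm := Mil_pos 1
  obtain ⟨m1, hm1⟩ : ∃ m1, m1 = Mil 1 := ⟨_, rfl⟩
  rw [← hm1] at hm
  obtain ⟨r, hr⟩ : ∃ r : ℝ, r = min (1 / 4) (ε / 20) := ⟨_, rfl⟩
  have hr0 : 0 < r := by rw [hr]; positivity
  have hr1 : r ≤ 1 / 4 := by rw [hr]; exact min_le_left _ _
  have hr2 : r ≤ ε / 20 := by rw [hr]; exact min_le_right _ _
  obtain ⟨δ, hδ⟩ : ∃ δ : ℝ, δ = min 1 (min (ε * m1 / 24) (r * vN / (2 * (D + 1)))) := ⟨_, rfl⟩
  have hδ0 : 0 < δ := by rw [hδ]; positivity
  have hδ1 : δ ≤ 1 := by rw [hδ]; exact min_le_left _ _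
  have hδ2 : δ ≤ ε * m1 / 24 := by rw [hδ]; exact (min_le_right _ _).trans (min_le_left _ _)
  have hδ3 : δ ≤ r * vN / (2 * (D + 1)) := by
    rw [hδ]; exact (min_le_right _ _).trans (min_le_right _ _)
  refine ⟨δ, ε * m1 / (8 * exp 1), max (max 1 (2 * D / (r * vN))) (max (2 / vN) ((2 * D / r) ^ 2 / vN)),
    hδ0, hδ1, by positivity, (le_max_left _ _).trans (le_max_left _ _), ?_⟩
  intro L hL η hη hηδ hx2 V hV s hs a N ha hz hN
  have hL1 : 1 ≤ L := ((le_max_left _ _).trans (le_max_left _ _)).trans hL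
  have hL2 : 2 * D / (r * vN) ≤ L := ((le_max_right _ _).trans (le_max_left _ _)).trans hL
  have hL3 : 2 / vN ≤ L := ((le_max_left _ _).trans (le_max_right _ _)).trans hL
  have hL4 : (2 * D / r) ^ 2 / vN ≤ L := ((le_max_right _ _).trans (le_max_right _ _)).trans hL
  have hLp : 0 < L := by linarith
  have hvL : 0 < vN * L := by positivity
  obtain ⟨S, hS⟩ : ∃ S, S = √(vN * L) := ⟨_, rfl⟩
  have hS0 : 0 < S := by rw [hS]; exact sqrt_pos.2 hvL
  have hSS : S ^ 2 = vN * L := by rw [hS]; exact sq_sqrt hvL.le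
  -- the ratio
  have hrho : |V / (vN * L) - 1| ≤ r := by
    have e1 : V / (vN * L) - 1 = (V - vN * L) / (vN * L) := by field_simp
    rw [e1, abs_div, abs_of_pos hvL, div_le_iff₀ hvL]
    refine hV.trans ?_
    have i1 : D * 1 ≤ r * (vN * L) / 2 := by
      rw [div_le_iff₀ (by positivity)] at hL2
      linarith
    have i2 : D * η ≤ r * vN / 2 := by
      have : η ≤ r * vN / (2 * (D + 1)) := hηδ.trans hδ3
      rw [le_div_iff₀ (by positivity)] at this
      linarith
    have i3 := mul_le_mul_of_nonneg_right i2 hLp.le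
    linarith
  have hVr := abs_le.1 hrho
  have hV34 : 3 / 4 * (vN * L) ≤ V := by
    have : 3 / 4 ≤ V / (vN * L) := by linarith [hVr.1]
    rwa [le_div_iff₀ hvL] at this
  have hV1 : 1 ≤ V := by
    rw [div_le_iff₀ hv] at hL3
    linarith
  have hVp : 0 < V := by linarith
  have hq : 0 < √V := sqrt_pos.2 hVp
  obtain ⟨l, hl⟩ : ∃ l, l = √V / S := ⟨_, rfl⟩
  have hl0 : 0 < l := by rw [hl]; positivity
  have hl2 : l ^ 2 = V / (vN * L) := by rw [hl, div_pow, sq_sqrt hVp.le, hSS]
  have hl3 : |l - 1| ≤ r := by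
    have h1 : |l - 1| ≤ |l ^ 2 - 1| := by
      have : l ^ 2 - 1 = (l - 1) * (l + 1) := by ring
      rw [this, abs_mul, abs_of_pos (by linarith : 0 < l + 1)]
      have := mul_nonneg (abs_nonneg (l - 1)) hl0.le
      linarith
    rw [hl2] at h1
    exact h1.trans hrho
  have hl4 : 1 / 2 ≤ l := by
    have := (abs_le.1 hl3).1
    linarith
  have hSq : S ≤ 2 * √V := by
    have : √V = l * S := by rw [hl]; field_simp
    have := mul_le_mul_of_nonneg_right hl4 hS0.le
    linarith
  -- the point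
  obtain ⟨x, hx⟩ : ∃ x, x = η * √V := ⟨_, rfl⟩
  obtain ⟨X, hX⟩ : ∃ X, X = η * S := ⟨_, rfl⟩
  have hX2 : 2 ≤ X := by rw [hX, hS]; exact hx2
  have hxX : x = l * X := by
    rw [hx, hX, hl]
    field_simp
  have hx1 : 1 ≤ x := by
    rw [hxX]
    have := mul_le_mul hl4 hX2 (by norm_num) hl0.le
    linarith
  obtain ⟨t, ht⟩ : ∃ t, t = s / √V := ⟨_, rfl⟩
  have htb : |t| ≤ r := by
    rw [ht, abs_div, abs_of_pos hq, div_le_iff₀ hq]
    refine hs.trans ?_
    have h1 : 2 * D / r ≤ S := by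
      rw [hS]
      apply le_sqrt_of_sq_le
      rw [div_le_iff₀ hv] at hL4
      linarith
    rw [div_le_iff₀ hr0] at h1
    have := mul_le_mul_of_nonneg_right hSq hr0.le
    linarith
  have k1 := lap hη (hηδ.trans hδ1) hV1 (by positivity) a N ha hz hN
  rw [← hx, ← ht] at k1
  have k2 := Mil_shift hx1 (htb.trans (by linarith))
  have k3 := Mil_scale (x := X) (by linarith) hl4
  rw [← hxX] at k3
  rw [← hS, ← hX]
  have hMX := Mil_pos X
  have hMx := Mil_pos x
  have k4 := Mil_ge (show 1 ≤ X by linarith)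
  rw [← hm1] at k4
  have hat := abs_nonneg t
  -- the error terms
  have e1 : 3 / √V ≤ ε / 4 * Mil X := by
    have h1 : 3 / √V ≤ 6 * δ / X := by
      rw [div_le_div_iff₀ hq (by linarith)]
      have h2 : X ≤ δ * S := by rw [hX]; exact mul_le_mul_of_nonneg_right hηδ hS0.le
      have := mul_le_mul_of_nonneg_left hSq hδ0.le
      linarith
    refine h1.trans ?_
    have h3 : 6 * δ / X ≤ ε / 4 * (m1 / X) := by
      rw [← mul_div_assoc]
      apply div_le_div_of_nonneg_right _ (by linarith)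
      linarith
    exact h3.trans (mul_le_mul_of_nonneg_left k4 (by linarith))
  have e2 : ε * m1 / (8 * exp 1) * exp 1 / x ≤ ε / 4 * Mil X := by
    have h1 : ε * m1 / (8 * exp 1) * exp 1 / x ≤ ε / 4 * (m1 / X) := by
      have e3 : ε * m1 / (8 * exp 1) * exp 1 / x = ε * m1 / 8 / x := by
        field_simp
      have e4 : ε / 4 * (m1 / X) = ε * m1 / 4 / X := by ring
      rw [e3, e4, div_le_div_iff₀ (by linarith) (by linarith)]
      have hX0 : 0 ≤ X := by linarith
      have : X ≤ 2 * x := by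
        rw [hxX]
        have := mul_le_mul_of_nonneg_right hl4 hX0
        linarith
      have h5 : 0 ≤ ε * m1 / 8 := by positivity
      have := mul_le_mul_of_nonneg_left this h5
      linarith
    exact h1.trans (mul_le_mul_of_nonneg_left k4 (by linarith))
  have k3' : |Mil x - Mil X| ≤ 2 * r * Mil X :=
    k3.trans (mul_le_mul_of_nonneg_right (by linarith) hMX.le)
  have hMx2 : Mil x ≤ 3 / 2 * Mil X := by
    have := (abs_le.1 k3').2
    have := mul_le_mul_of_nonneg_right hr1 hMX.le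
    linarith
  have k2' : |Mil (x + t) - Mil x| ≤ 2 * r * (3 / 2 * Mil X) :=
    k2.trans (mul_le_mul (by linarith) hMx2 hMx.le (by positivity))
  have hMxt : Mil (x + t) ≤ 3 * Mil X := by
    have := (abs_le.1 k2').2
    have := mul_le_mul_of_nonneg_right hr1 hMX.le
    linarith
  have hMxt0 := Mil_pos (x + t)
  have k5 : |exp (-(t ^ 2 / 2)) * Mil (x + t) - Mil (x + t)| ≤ r * (3 * Mil X) := by
    have h1 : exp (-(t ^ 2 / 2)) * Mil (x + t) - Mil (x + t) =
        -((1 - exp (-(t ^ 2 / 2))) * Mil (x + t)) := by ring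
    have h2 : exp (-(t ^ 2 / 2)) ≤ 1 := exp_le_one_iff.2 (by have := sq_nonneg t; linarith)
    have h3 := add_one_le_exp (-(t ^ 2 / 2))
    rw [h1, abs_neg, abs_of_nonneg (mul_nonneg (by linarith) hMxt0.le)]
    apply mul_le_mul _ hMxt hMxt0.le hr0.le
    have h4 : t ^ 2 ≤ r := by
      rw [← sq_abs]
      calc |t| ^ 2 = |t| * |t| := sq _
        _ ≤ r * 1 := mul_le_mul htb (by linarith) hat hr0.le
        _ = r := mul_one _
    linarith
  have e6 : ε * Mil X = ε / 4 * Mil X + ε / 4 * Mil X + ε / 2 * Mil X := by ring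
  rw [e6]
  have e7 : r * (3 * Mil X) + 2 * r * (3 / 2 * Mil X) + 2 * r * Mil X ≤ ε / 2 * Mil X := by
    have : r * (3 * Mil X) + 2 * r * (3 / 2 * Mil X) + 2 * r * Mil X = (8 * r) * Mil X := by ring
    rw [this]
    apply mul_le_mul_of_nonneg_right _ hMX.le
    linarith
  rw [abs_le] at k1 k2' k3' k5 ⊢
  constructor <;> linarith [k1.1, k1.2, k2'.1, k2'.2, k3'.1, k3'.2, k5.1, k5.2]

/-- the upper tail through the local probabilities -/
theorem up_sum (n M N : ℕ) (h : ℝ) (hN : mx n < M + N) : EN n (fun m => ind (M ≤ m)) =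
    ∑ j ∈ Finset.range N, exp (-(h * ((M + j : ℕ) : ℝ))) * lc n h (M + j) := by
  unfold lc
  rw [← EN_fsum]
  have key : ∀ m, m ≤ mx n → ind (M ≤ m) = ∑ j ∈ Finset.range N,
      exp (-(h * ((M + j : ℕ) : ℝ))) * (if m = M + j then exp h ^ m else 0) := by
    intro m hm
    simp only [wt_ind]
    by_cases hM : M ≤ m
    · have h1 : ∀ j ∈ Finset.range N, (if m = M + j then (1:ℝ) else 0) =
          if m - M = j then 1 else 0 := by
        intro j _
        by_cases hj : m = M + j
        · rw [if_pos hj, if_pos (by omega)]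
        · rw [if_neg hj, if_neg (by omega)]
      rw [Finset.sum_congr rfl h1, Finset.sum_ite_eq, ind_of hM,
        if_pos (Finset.mem_range.2 (by omega))]
    · rw [ind_not_of hM]
      symm
      apply Finset.sum_eq_zero
      intro j _
      rw [if_neg (by omega)]
  exact le_antisymm (EN_mono_mx fun m hm => (key m hm).le) (EN_mono_mx fun m hm => (key m hm).ge)

/-- the lower tail through the local probabilities -/
theorem down_sum (n M : ℕ) (h : ℝ) : EN n (fun m => ind (m ≤ M)) =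
    ∑ j ∈ Finset.range (M + 1), exp (-(h * ((M - j : ℕ) : ℝ))) * lc n h (M - j) := by
  unfold lc
  rw [← EN_fsum]
  congr 1
  funext m
  simp only [wt_ind]
  by_cases hM : m ≤ M
  · have h1 : ∀ j ∈ Finset.range (M + 1), (if m = M - j then (1:ℝ) else 0) =
        if M - m = j then 1 else 0 := by
      intro j hj
      have hj' := Finset.mem_range.1 hj
      by_cases hj2 : m = M - j
      · rw [if_pos hj2, if_pos (by omega)]
      · rw [if_neg hj2, if_neg (by omega)]
    rw [Finset.sum_congr rfl h1, Finset.sum_ite_eq, ind_of hM,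
      if_pos (Finset.mem_range.2 (by omega))]
  · rw [ind_not_of hM]
    symm
    apply Finset.sum_eq_zero
    intro j _
    rw [if_neg (by omega)]

/-- the normalisation, and the comparison with a sum which is known up to a factor -/
theorem assemble {ε θ A Z S M : ℝ} (hε0 : 0 < ε) (hε : ε ≤ 1) (hM : 0 < M) (hA : 0 < A)
    (hZ : Z = A * exp θ) (hθ : |θ| ≤ ε / 8) (hS : |S - M| ≤ ε / 4 * M) :
    |Z * S - A * M| ≤ ε * (A * M) := by
  have h1 : |exp θ - 1| ≤ 2 * |θ| := by
    have h0 := Pool.Agent.U154.UT.exp_sub_le θ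
    have h2 : exp |θ| ≤ 2 := by
      have h3 : exp |θ| ≤ 1 / (1 - |θ|) := by
        have h4 := add_one_le_exp (-|θ|)
        have h5 : exp |θ| * exp (-|θ|) = 1 := by rw [← exp_add]; simp
        rw [le_div_iff₀ (by linarith)]
        calc exp |θ| * (1 - |θ|) ≤ exp |θ| * exp (-|θ|) :=
              mul_le_mul_of_nonneg_left (by linarith) (exp_pos _).le
          _ = 1 := h5
      refine h3.trans ?_
      rw [div_le_iff₀ (by linarith)]
      linarith
    refine h0.trans ?_
    have := abs_nonneg θ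
    nlinarith
  have h2 : |exp θ - 1| ≤ ε / 4 := by linarith
  have h3 : |S| ≤ 2 * M := by
    have := abs_le.1 hS
    rw [abs_le]
    constructor <;> nlinarith
  have e1 : Z * S - A * M = A * ((exp θ - 1) * S + (S - M)) := by rw [hZ]; ring
  rw [e1, abs_mul, abs_of_pos hA]
  have h4 : |(exp θ - 1) * S + (S - M)| ≤ ε * M := by
    refine (abs_add_le _ _).trans ?_
    rw [abs_mul]
    have h5 : |exp θ - 1| * |S| ≤ ε / 4 * (2 * M) :=
      mul_le_mul h2 h3 (abs_nonneg _) (by linarith)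
    nlinarith
  calc A * |(exp θ - 1) * S + (S - M)| ≤ A * (ε * M) := mul_le_mul_of_nonneg_left h4 hA.le
    _ = _ := by ring

theorem V_le_mu (s : Multiset ℝ) (hs : ∀ p ∈ s, 0 < p ∧ p ≤ 1) :
    (s.map (fun p => p * (1 - p))).sum ≤ s.sum := by
  have e : s.sum = (s.map (fun p => p)).sum := by rw [Multiset.map_id']
  rw [e]
  apply Multiset.sum_map_le_sum_map
  intro p hp
  have := hs p hp
  nlinarith [this.1, this.2]

/-- both tails on the cylinder -/
theorem cyl_ex {H C c : ℝ} {ps : ℕ → Multiset ℝ} (hH : 0 < H) (hT : Tilts H C c ps) {ε D : ℝ}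
    (hε0 : 0 < ε) (hε1 : ε ≤ 1) (hD : 0 ≤ D) : ∃ δ : ℝ, 0 < δ ∧ δ ≤ H ∧ δ ≤ 1 ∧
    ∀ᶠ n : ℕ in atTop, ∀ h : ℝ, |h| ≤ δ → 2 ≤ |h| * √(vN * log n) → ∀ M : ℕ,
      |dL h * log n - M| ≤ D →
      (0 < h → |EN n (fun m => ind (M ≤ m)) -
        exp (-(h * M) + Lm h * log n) * Mil (|h| * √(vN * log n))| ≤
        ε * (exp (-(h * M) + Lm h * log n) * Mil (|h| * √(vN * log n)))) ∧
      (h < 0 → |EN n (fun m => ind (m ≤ M)) -
        exp (-(h * M) + Lm h * log n) * Mil (|h| * √(vN * log n))| ≤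
        ε * (exp (-(h * M) + Lm h * log n) * Mil (|h| * √(vN * log n)))) := by
  have hC0 := hT.C0
  have hv := vN_pos'
  obtain ⟨δ0, e, L1, hδ0, hδ01, he, hL1, hcore⟩ := core (ε := ε / 4) (D := C + D) (by linarith)
    (by linarith)
  obtain ⟨δ, hδ⟩ : ∃ δ : ℝ, δ = min (min δ0 H) (ε / (8 * (C + 1))) := ⟨_, rfl⟩
  have d0 : 0 < δ := by rw [hδ]; positivity
  have d1 : δ ≤ δ0 := by rw [hδ]; exact (min_le_left _ _).trans (min_le_left _ _)
  have d2 : δ ≤ H := by rw [hδ]; exact (min_le_left _ _).trans (min_le_right _ _)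
  have d3 : δ ≤ ε / (8 * (C + 1)) := by rw [hδ]; exact min_le_right _ _
  refine ⟨δ, d0, d2, d1.trans hδ01, ?_⟩
  have hLog : Tendsto (fun n : ℕ => log (n : ℝ)) atTop atTop :=
    tendsto_log_atTop.comp tendsto_natCast_atTop_atTop
  obtain ⟨v1, v2, hv1, hv2, hVb⟩ := V_bd hT
  filter_upwards [cyl_llt hT he, hVb, hLog.eventually_ge_atTop L1,
    hLog.eventually_ge_atTop (1 / v1), eventually_ge_atTop 1] with n k1 k2 k3 k3' hn
  intro h hh hx2 M hM
  have hhH : |h| ≤ H := hh.trans d2
  have hL : 0 < log (n:ℝ) := by linarith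
  obtain ⟨μ, hμ⟩ : ∃ μ, μ = ((ps n).map (qt (exp h))).sum := ⟨_, rfl⟩
  obtain ⟨V, hVd⟩ : ∃ V, V = (((ps n).map (qt (exp h))).map (fun q => q * (1 - q))).sum :=
    ⟨_, rfl⟩
  have hV1 : 1 ≤ V := by
    have := (k2 h hhH V hVd).1
    rw [div_le_iff₀ hv1] at k3'
    linarith
  have hVp : 0 < V := by linarith
  have hq : 0 < √V := sqrt_pos.2 hVp
  have hVμ : V ≤ μ := by rw [hVd, hμ]; exact V_le_mu _ (hT.mem h hhH n hn)
  have hmean := hT.mean h hhH n hn
  rw [← hμ] at hmean
  have hvar := hT.var h hhH n hn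
  rw [← hVd] at hvar
  have hvar' : |V - vN * log n| ≤ (C + D) * (1 + |h| * log n) := by
    refine hvar.trans (mul_le_mul_of_nonneg_right (by linarith) ?_)
    have := abs_nonneg h
    positivity
  have hZ0 : 0 < Zc n h := by rw [Zc_eq (hT.isps n hn) h]; exact exp_pos _
  obtain ⟨θ, hθ⟩ : ∃ θ, θ = ((ps n).map (fun p => log (1 + p * (exp h - 1)))).sum -
    Lm h * log n := ⟨_, rfl⟩
  have hθb : |θ| ≤ ε / 8 := by
    rw [hθ]
    refine (hT.lg h hhH n hn).trans ?_
    have h1 : C * |h| ≤ C * (ε / (8 * (C + 1))) := mul_le_mul_of_nonneg_left (hh.trans d3) hC0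
    refine h1.trans ?_
    rw [← mul_div_assoc, div_le_div_iff₀ (by positivity) (by norm_num)]
    linarith
  have hZ : exp (-(h * M)) * Zc n h = exp (-(h * M) + Lm h * log n) * exp θ := by
    rw [Zc_eq (hT.isps n hn) h, ← exp_add, ← exp_add, hθ]
    congr 1
    ring
  have hMp := Mil_pos (|h| * √(vN * log n))
  have hmb := abs_le.1 hmean
  have hMb := abs_le.1 hM
  constructor
  · intro h0
    have ah : |h| = h := abs_of_pos h0
    rw [ah] at hx2 hvar' hMp ⊢
    have hs : |(M:ℝ) - μ| ≤ C + D := by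
      rw [abs_le]
      constructor <;> linarith
    obtain ⟨N, hN1⟩ := exists_nat_ge (max (mx n + 1 : ℝ) (max (√V / h) (C + D)))
    have n1 : mx n < M + N := by
      have : (mx n : ℝ) + 1 ≤ N := (le_max_left _ _).trans hN1
      have : mx n + 1 ≤ N := by exact_mod_cast this
      omega
    have n2 : √V ≤ h * N := by
      have : √V / h ≤ N := ((le_max_left _ _).trans (le_max_right _ _)).trans hN1
      rw [div_le_iff₀ h0] at this
      linarith
    have n3 : C + D ≤ N := ((le_max_right _ _).trans (le_max_right _ _)).trans hN1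
    have key := hcore (log n) k3 h h0 (by rw [← ah]; exact hh.trans d1) hx2 V hvar' (M - μ) hs
      (fun j => lc n h (M + j) / Zc n h) N (fun j _ => by
        have := k1 h hhH (M + j) μ V hμ hVd
        have e1 : gd (-((M:ℝ) - μ)) V j =
            exp (-((μ - ((M + j : ℕ) : ℝ)) ^ 2 / (2 * V))) / √(2 * π * V) := by
          unfold gd
          congr 5
          push_cast
          ring
        rw [e1]
        exact this) (by have := (abs_le.1 hs).1; linarith) (by
        have h1 : exp (-(h * N) - (N + ((M:ℝ) - μ)) ^ 2 / (2 * V)) ≤ exp (-√V) := by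
          apply exp_le_exp.2
          have : 0 ≤ (N + ((M:ℝ) - μ)) ^ 2 / (2 * V) := by positivity
          linarith
        refine h1.trans ?_
        have h2 := add_one_le_exp (√V)
        have h3 : exp (-√V) * exp (√V) = 1 := by rw [← exp_add]; simp
        rw [le_div_iff₀ hq]
        calc exp (-√V) * √V ≤ exp (-√V) * exp (√V) :=
              mul_le_mul_of_nonneg_left (by linarith) (exp_pos _).le
          _ = 1 := h3)
    have e2 : EN n (fun m => ind (M ≤ m)) = (exp (-(h * M)) * Zc n h) *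
        ∑ j ∈ Finset.range N, exp (-(h * j)) * (lc n h (M + j) / Zc n h) := by
      rw [up_sum n M N h n1, Finset.mul_sum]
      apply Finset.sum_congr rfl
      intro j _
      have e3 : exp (-(h * ((M + j : ℕ) : ℝ))) = exp (-(h * M)) * exp (-(h * j)) := by
        rw [← exp_add]
        congr 1
        push_cast
        ring
      rw [e3]
      field_simp
    rw [e2]
    exact assemble hε0 hε1 hMp (exp_pos _) hZ hθb key
  · intro h0
    have ah : |h| = -h := abs_of_neg h0
    rw [ah] at hx2 hvar' hMp ⊢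
    have hs : |μ - (M:ℝ)| ≤ C + D := by
      rw [abs_le]
      constructor <;> linarith
    have key := hcore (log n) k3 (-h) (by linarith) (by rw [← ah]; exact hh.trans d1) hx2 V hvar'
      (μ - M) hs (fun j => lc n h (M - j) / Zc n h) (M + 1) (fun j hj => by
        have := k1 h hhH (M - j) μ V hμ hVd
        have e1 : gd (-(μ - (M:ℝ))) V j =
            exp (-((μ - ((M - j : ℕ) : ℝ)) ^ 2 / (2 * V))) / √(2 * π * V) := by
          unfold gd
          congr 3
          congr 1
          rw [Nat.cast_sub (by omega)]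
          ring
        rw [e1]
        exact this) (by push_cast; linarith) (by
        have h1 : exp (-(-h * ((M + 1 : ℕ) : ℝ)) -
            (((M + 1 : ℕ) : ℝ) + (μ - M)) ^ 2 / (2 * V)) ≤ exp (-(V / 2)) := by
          apply exp_le_exp.2
          have i1 : ((M + 1 : ℕ) : ℝ) + (μ - M) = μ + 1 := by push_cast; ring
          have i2 : 0 ≤ -h * ((M + 1 : ℕ) : ℝ) := by
            have : 0 ≤ -h := by linarith
            positivity
          have i3 : V / 2 ≤ (μ + 1) ^ 2 / (2 * V) := by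
            rw [div_le_div_iff₀ (by norm_num) (by positivity)]
            have := pow_le_pow_left₀ hVp.le (show V ≤ μ + 1 by linarith) 2
            linarith
          rw [i1]
          linarith
        exact h1.trans (exp_sqrt hV1))
    have e2 : EN n (fun m => ind (m ≤ M)) = (exp (-(h * M)) * Zc n h) *
        ∑ j ∈ Finset.range (M + 1), exp (-(-h * j)) * (lc n h (M - j) / Zc n h) := by
      rw [down_sum n M h, Finset.mul_sum]
      apply Finset.sum_congr rfl
      intro j hj
      have hj' := Finset.mem_range.1 hj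
      have e3 : exp (-(h * ((M - j : ℕ) : ℝ))) = exp (-(h * M)) * exp (-(-h * j)) := by
        rw [← exp_add, Nat.cast_sub (by omega)]
        congr 1
        ring
      rw [e3]
      field_simp
    rw [e2]
    exact assemble hε0 hε1 hMp (exp_pos _) hZ hθb key

end Pool.Agent.U154.MD
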