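import Pool.Agent.U154.UT.Fin

/-!
Expansions at the tilt zero.
-/

set_option autoImplicit false

namespace Pool.Agent.U154.MD

open MeasureTheory Real Filter Topology Finset
open Pool.Agent.H863R2.NL (EN ET IsPs cN vN)
open Pool.Agent.H450R4.NL (Ph qt tilt_coef)
open Pool.Agent.W819.EN (dL nuc Rate Lam gam)
open Pool.Agent.U154.UT (Tilts Lm cN_pos' vN_pos' Lm_zero Lm_mono legA legB den_pos' nonneg_of_log)

theorem exp_two {h : ℝ} (hh : |h| ≤ 1) : |exp h - 1 - h| ≤ h ^ 2 := by
  exact abs_exp_sub_one_sub_id_le hh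

theorem qt_tay {h p : ℝ} (hh : |h| ≤ 1) (hp0 : 0 < p) (hp1 : p ≤ 1 / 3) :
    |qt (exp h) p - p - h * (p * (1 - p))| ≤ 5 / 2 * h ^ 2 * p := by
  have hE := exp_pos h
  have hd := den_pos' hE hp0.le hp1
  have hd2 : 2 / 3 ≤ 1 + p * (exp h - 1) := by nlinarith
  have e1 : qt (exp h) p - p - h * (p * (1 - p)) =
      p * (1 - p) * ((exp h - 1 - h) - h * p * (exp h - 1)) / (1 + p * (exp h - 1)) := by
    unfold qt
    field_simp
    ring
  have a1 := exp_two hh
  have a2 : |exp h - 1| ≤ 2 * |h| := by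
    have h1 : |exp h - 1| ≤ |exp h - 1 - h| + |h| := by
      have := abs_add_le (exp h - 1 - h) h
      rwa [sub_add_cancel] at this
    have h2 : h ^ 2 ≤ |h| := by
      rw [← sq_abs]
      have := abs_nonneg h
      nlinarith
    linarith
  have a3 : |(exp h - 1 - h) - h * p * (exp h - 1)| ≤ 5 / 3 * h ^ 2 := by
    have h1 : |h * p * (exp h - 1)| ≤ 2 / 3 * h ^ 2 := by
      rw [abs_mul, abs_mul, abs_of_pos hp0]
      have h2 : |h| * p ≤ |h| * (1 / 3) := mul_le_mul_of_nonneg_left hp1 (abs_nonneg h)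
      calc |h| * p * |exp h - 1| ≤ |h| * (1 / 3) * (2 * |h|) :=
            mul_le_mul h2 a2 (abs_nonneg _) (by positivity)
        _ = 2 / 3 * |h| ^ 2 := by ring
        _ = _ := by rw [sq_abs]
    refine (abs_sub _ _).trans ?_
    linarith
  rw [e1, abs_div, abs_mul, abs_of_pos hd, abs_of_nonneg (by nlinarith : 0 ≤ p * (1 - p)),
    div_le_iff₀ hd]
  have h2 : p * (1 - p) ≤ p := by nlinarith
  calc p * (1 - p) * |(exp h - 1 - h) - h * p * (exp h - 1)| ≤ p * (5 / 3 * h ^ 2) :=
        mul_le_mul h2 a3 (abs_nonneg _) hp0.le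
    _ = 5 / 2 * h ^ 2 * p * (2 / 3) := by ring
    _ ≤ _ := mul_le_mul_of_nonneg_left hd2 (by positivity)

theorem sum_map_sub_le {s : Multiset ℝ} {f g : ℝ → ℝ} {c : ℝ}
    (h : ∀ p ∈ s, |f p - g p| ≤ c * p) : |(s.map f).sum - (s.map g).sum| ≤ c * s.sum := by
  have e : c * s.sum = (s.map (fun p => c * p)).sum := by
    rw [Multiset.sum_map_mul_left, Multiset.map_id']
  rw [e, abs_le]
  constructor
  · have h1 : (s.map g).sum - (s.map (fun p => c * p)).sum ≤ (s.map f).sum := by
      rw [← Multiset.sum_map_sub]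
      exact Multiset.sum_map_le_sum_map _ _ fun p hp => by linarith [(abs_le.1 (h p hp)).1]
    linarith
  · have h1 : (s.map f).sum ≤ (s.map g).sum + (s.map (fun p => c * p)).sum := by
      rw [← Multiset.sum_map_add]
      exact Multiset.sum_map_le_sum_map _ _ fun p hp => by linarith [(abs_le.1 (h p hp)).2]
    linarith

/-- the expansion of the density of layers -/
theorem dL_tay {H C c : ℝ} {ps : ℕ → Multiset ℝ} (hH : 0 < H) (hT : Tilts H C c ps) {h : ℝ}
    (hh : |h| ≤ H) (hh1 : |h| ≤ 1) : |dL h - cN - vN * h| ≤ 5 / 2 * cN * h ^ 2 := by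
  have hc := cN_pos'
  have hC0 := hT.C0
  have key : ∀ n : ℕ, 1 ≤ n → |(dL h - cN - vN * h) * log n| ≤
      5 / 2 * cN * h ^ 2 * log n + (5 / 2 * h ^ 2 * C + 3 * C) := by
    intro n hn
    have hs := hT.isps n hn
    have k1 : |((ps n).map (qt (exp h))).sum - ((ps n).map (fun p => p + h * (p * (1 - p)))).sum| ≤
        5 / 2 * h ^ 2 * (ps n).sum := by
      apply sum_map_sub_le
      intro p hp
      have := qt_tay hh1 (hs.1 p hp).1 (hs.1 p hp).2
      rwa [show qt (exp h) p - (p + h * (p * (1 - p))) = qt (exp h) p - p - h * (p * (1 - p)) by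
        ring]
    have e1 : ((ps n).map (fun p => p + h * (p * (1 - p)))).sum =
        (ps n).sum + h * ((ps n).map (fun p => p * (1 - p))).sum := by
      rw [Multiset.sum_map_add, Multiset.sum_map_mul_left, Multiset.map_id']
    have k2 := hT.var 0 (by rw [abs_zero]; exact hH.le) n hn
    have e2 : ((ps n).map (qt (exp 0))).map (fun q => q * (1 - q)) =
        (ps n).map (fun p => p * (1 - p)) := by
      rw [Multiset.map_map]
      apply Multiset.map_congr rfl
      intro p hp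
      simp only [Function.comp_apply]
      have : qt (exp 0) p = p := by
        unfold qt
        rw [exp_zero]
        simp
      rw [this]
    rw [e2, abs_zero, zero_mul, add_zero, mul_one] at k2
    have k3 := hT.mean h hh n hn
    have k4 := hT.sm n hn
    rw [e1] at k1
    obtain ⟨A, hA⟩ : ∃ A, A = ((ps n).map (qt (exp h))).sum := ⟨_, rfl⟩
    obtain ⟨S, hS⟩ : ∃ S, S = (ps n).sum := ⟨_, rfl⟩
    obtain ⟨W, hW⟩ : ∃ W, W = ((ps n).map (fun p => p * (1 - p))).sum := ⟨_, rfl⟩
    rw [← hA, ← hS, ← hW] at k1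
    rw [← hW] at k2
    rw [← hA] at k3
    rw [← hS] at k4
    have e3 : (dL h - cN - vN * h) * log n = -(A - dL h * log n) + (A - (S + h * W)) +
        (S - cN * log n) + h * (W - vN * log n) := by ring
    rw [e3]
    have k5 : |h * (W - vN * log n)| ≤ 1 * C := by
      rw [abs_mul]
      exact mul_le_mul hh1 k2 (abs_nonneg _) (by norm_num)
    have k6 : 5 / 2 * h ^ 2 * S ≤ 5 / 2 * h ^ 2 * (cN * log n + C) :=
      mul_le_mul_of_nonneg_left (by linarith [(abs_le.1 k4).2]) (by positivity)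
    have k1' := k1.trans k6
    rw [abs_le] at k1' k3 k4 k5 ⊢
    constructor <;> linarith [k1'.1, k1'.2, k3.1, k3.2, k4.1, k4.2, k5.1, k5.2]
  rw [abs_le]
  constructor
  · have : 0 ≤ 5 / 2 * cN * h ^ 2 + (dL h - cN - vN * h) := by
      apply nonneg_of_log (y := 5 / 2 * h ^ 2 * C + 3 * C)
      intro n hn
      have := (abs_le.1 (key n hn)).1
      linarith
    linarith
  · have : 0 ≤ 5 / 2 * cN * h ^ 2 - (dL h - cN - vN * h) := by
      apply nonneg_of_log (y := 5 / 2 * h ^ 2 * C + 3 * C)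
      intro n hn
      have := (abs_le.1 (key n hn)).2
      linarith
    linarith

/-- the expansion of the rate -/
theorem gam_tay {H C c : ℝ} {ps : ℕ → Multiset ℝ} (hH : 0 < H) (hT : Tilts H C c ps) {h : ℝ}
    (hh : |h| ≤ H) (hh1 : |h| ≤ 1) : |gam h - vN * h ^ 2 / 2| ≤ 5 * cN * |h| ^ 3 := by
  have hc := cN_pos'
  have ha := abs_nonneg h
  have hder : ∀ s : ℝ, HasDerivAt (fun s => Lam s - cN * s - vN * s ^ 2 / 2)
      (dL s - cN - vN * s) s := by
    intro s
    have h1 := ((legA.der s).sub ((hasDerivAt_id s).const_mul cN)).sub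
      (((hasDerivAt_pow 2 s).const_mul vN).div_const 2)
    refine h1.congr_deriv ?_
    simp
    ring
  have k1 : |(Lam h - cN * h - vN * h ^ 2 / 2) - (Lam 0 - cN * 0 - vN * 0 ^ 2 / 2)| ≤
      5 / 2 * cN * |h| ^ 2 * |h - 0| := by
    have hseg : ∀ s ∈ Set.uIcc 0 h, |s| ≤ |h| := by
      intro s hs
      rw [Set.mem_uIcc] at hs
      rcases hs with hs | hs
      · rw [abs_of_nonneg hs.1, abs_of_nonneg (hs.1.trans hs.2)]
        exact hs.2
      · rw [abs_of_nonpos hs.2, abs_of_nonpos (hs.1.trans hs.2)]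
        linarith [hs.1]
    have := Convex.norm_image_sub_le_of_norm_hasDerivWithin_le
      (f := fun s => Lam s - cN * s - vN * s ^ 2 / 2) (f' := fun s => dL s - cN - vN * s)
      (C := 5 / 2 * cN * |h| ^ 2) (s := Set.uIcc 0 h) (x := 0) (y := h)
      (fun s hs => (hder s).hasDerivWithinAt) (fun s hs => by
        have h1 := hseg s hs
        rw [Real.norm_eq_abs]
        refine (dL_tay hH hT (h1.trans hh) (h1.trans hh1)).trans ?_
        apply mul_le_mul_of_nonneg_left _ (by positivity)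
        rw [← sq_abs]
        exact pow_le_pow_left₀ (abs_nonneg s) h1 2) (convex_uIcc 0 h) Set.left_mem_uIcc
        Set.right_mem_uIcc
    simpa only [Real.norm_eq_abs] using this
  have h0 : Lam 0 = 0 := legA.zero
  rw [h0, sub_zero] at k1
  have e0 : Lam h - cN * h - vN * h ^ 2 / 2 - (0 - cN * 0 - vN * 0 ^ 2 / 2) =
      Lam h - cN * h - vN * h ^ 2 / 2 := by ring
  rw [e0] at k1
  have k2 := dL_tay hH hT hh hh1
  have k3 : |h * (dL h - cN - vN * h)| ≤ |h| * (5 / 2 * cN * |h| ^ 2) := by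
    rw [abs_mul, sq_abs]
    exact mul_le_mul_of_nonneg_left k2 ha
  have e1 : gam h - vN * h ^ 2 / 2 = h * (dL h - cN - vN * h) -
      (Lam h - cN * h - vN * h ^ 2 / 2) := by
    unfold gam
    ring
  rw [e1]
  refine (abs_sub _ _).trans ?_
  have e2 : 5 * cN * |h| ^ 3 = |h| * (5 / 2 * cN * |h| ^ 2) + 5 / 2 * cN * |h| ^ 2 * |h| := by ring
  rw [e2]
  linarith

end Pool.Agent.U154.MD
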