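import Pool.Agent.U154.MD.Pln
import Pool.Agent.U154.MD.Tay
import Pool.Agent.U154.BE.Fin

/-!
Exact asymptotics of the tails in the plane in the range of moderate deviations, in terms of the
density of layers.
-/

set_option autoImplicit false

namespace Pool.Agent.U154.MD

open MeasureTheory Real Filter Topology H974 Finset H906.Cyl
open Pool.Agent.H863R2.NL (EN ET IsPs cN vN changes prob_changes)
open Pool.Agent.W819.EN (dL nuc P2 Rate gam)
open Pool.Agent.U154.UT (Tilts tilts Lm cN_pos' vN_pos' legA legB dL_zero)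
open Pool.Agent.U154.BE (Nc ph Nc_high Nc_low Nc_nonneg Nc_le_one Nc_mono Nc_sub Nc_lip plane_be_nat)

theorem Nc_neg (x : ℝ) : Nc (-x) = 1 - Nc x := by
  have h1 : Tendsto (fun b : ℝ => Nc b - Nc x) atTop (𝓝 (1 - Nc x)) := Nc_top.sub_const _
  have h2 : Tendsto (fun b : ℝ => Nc (-x) - Nc (-b)) atTop (𝓝 (Nc (-x) - 0)) := by
    apply Tendsto.const_sub
    have h3 : Tendsto (fun b : ℝ => exp (-(b ^ 2 / 2))) atTop (𝓝 0) := by
      apply tendsto_exp_atBot.comp
      apply tendsto_neg_atTop_atBot.comp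
      apply Tendsto.atTop_div_const (by norm_num)
      exact tendsto_pow_atTop (by norm_num)
    refine squeeze_zero' (Eventually.of_forall fun b => Nc_nonneg _) ?_ h3
    filter_upwards [eventually_ge_atTop 0] with b hb
    exact Nc_low hb
  have h3 : (fun b : ℝ => Nc b - Nc x) = fun b : ℝ => Nc (-x) - Nc (-b) := by
    funext b
    rw [Nc_sub, Nc_sub, ← intervalIntegral.integral_comp_neg]
    congr 1
    funext y
    unfold ph
    rw [neg_sq]
  rw [h3] at h1
  have := tendsto_nhds_unique h1 h2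
  linarith

/-- the main term -/
noncomputable def Tn (ν L : ℝ) : ℝ :=
  exp ((ν - cN) ^ 2 * L / (2 * vN) - Rate ν * L) * (1 - Nc (|ν - cN| * √(L / vN)))

theorem Tn_pos (ν L : ℝ) : 0 < Tn ν L :=
  mul_pos (exp_pos _) (by have := Nc_lt_one (|ν - cN| * √(L / vN)); linarith)

theorem Tn_eq {h L : ℝ} (hL : 0 < L) : Tn (dL h) L =
    exp (-(gam h * L)) * Mil (|dL h - cN| * √(L / vN)) := by
  have hv := vN_pos'
  unfold Tn Mil
  rw [← mul_assoc, ← exp_add, legB.rate h, mul_pow, sq_abs, sq_sqrt (by positivity)]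
  congr 2
  field_simp
  ring

/-- the ratio of the two normalisations -/
theorem ratio {H C c : ℝ} {ps : ℕ → Multiset ℝ} (hH : 0 < H) (hT : Tilts H C c ps) {h L : ℝ}
    (hh : |h| ≤ H) (hh1 : |h| ≤ 1) (hL : 0 < L) : ∃ l : ℝ, |l - 1| ≤ 5 / 2 * (cN / vN) * |h| ∧
      |dL h - cN| * √(L / vN) = l * (|h| * √(vN * L)) := by
  have hv := vN_pos'
  have hc := cN_pos'
  rcases eq_or_ne h 0 with h0 | h0
  · refine ⟨1, ?_, ?_⟩
    · rw [h0]
      simp
    · rw [h0, dL_zero]
      simp
  · have ha : 0 < |h| := abs_pos.2 h0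
    refine ⟨|dL h - cN| / (vN * |h|), ?_, ?_⟩
    · have k1 := dL_tay hH hT hh hh1
      have e1 : |dL h - cN| / (vN * |h|) - 1 = (|dL h - cN| - |vN * h|) / (vN * |h|) := by
        rw [abs_mul, abs_of_pos hv]
        field_simp
      rw [e1, abs_div, abs_of_pos (by positivity : 0 < vN * |h|), div_le_iff₀ (by positivity)]
      refine (abs_abs_sub_abs_le_abs_sub _ _).trans (k1.trans (le_of_eq ?_))
      rw [← sq_abs]
      field_simp
    · have e1 : √(L / vN) = √(vN * L) / vN := by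
        rw [sqrt_eq_iff_mul_self_eq (by positivity) (by positivity)]
        have : √(vN * L) * √(vN * L) = vN * L := mul_self_sqrt (by positivity)
        symm
        calc √(vN * L) / vN * (√(vN * L) / vN) = √(vN * L) * √(vN * L) / (vN * vN) := by ring
          _ = L / vN := by rw [this]; field_simp
      rw [e1]
      field_simp

/-- the comparison of the two main terms -/
theorem big {H C c : ℝ} {ps : ℕ → Multiset ℝ} (hH : 0 < H) (hT : Tilts H C c ps) {ε : ℝ}
    (hε0 : 0 < ε) (hε1 : ε ≤ 1) : ∃ δ : ℝ, 0 < δ ∧ ∀ h, h ≠ 0 → |h| ≤ δ → ∀ L, 0 < L → ∀ M : ℕ,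
      |dL h * L - M| ≤ 1 → |Bn h M L - Tn (dL h) L| ≤ ε * Tn (dL h) L := by
  have hv := vN_pos'
  have hc := cN_pos'
  obtain ⟨a, ha⟩ : ∃ a : ℝ, a = 5 / 2 * (cN / vN) := ⟨_, rfl⟩
  have ha0 : 0 < a := by rw [ha]; positivity
  refine ⟨min (min H 1) (min (ε / 8) (ε / (16 * a))), by positivity, ?_⟩
  intro h hne hh L hL M hM
  have h1 : |h| ≤ H := (hh.trans (min_le_left _ _)).trans (min_le_left _ _)
  have h2 : |h| ≤ 1 := (hh.trans (min_le_left _ _)).trans (min_le_right _ _)
  have h3 : |h| ≤ ε / 8 := (hh.trans (min_le_right _ _)).trans (min_le_left _ _)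
  have h4 : |h| ≤ ε / (16 * a) := (hh.trans (min_le_right _ _)).trans (min_le_right _ _)
  have hp : 0 < |h| := abs_pos.2 hne
  obtain ⟨l, hl1, hl2⟩ := ratio hH hT h1 h2 hL
  rw [← ha] at hl1
  have hl3 : |l - 1| ≤ ε / 16 := by
    rw [le_div_iff₀ (by positivity)] at h4
    linarith
  have hl4 := abs_le.1 hl3
  have hl5 : 1 / 2 ≤ l := by linarith
  have hx : 0 < |h| * √(vN * L) := by positivity
  rw [Tn_eq hL, hl2]
  obtain ⟨X, hX⟩ : ∃ X, X = |h| * √(vN * L) := ⟨_, rfl⟩
  rw [← hX] at hx ⊢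
  have hlX : 0 < l * X := by positivity
  have k1 : |Mil X - Mil (l * X)| ≤ ε / 4 * Mil (l * X) := by
    have e1 : X = l⁻¹ * (l * X) := by field_simp
    have i1 : |l⁻¹ - 1| ≤ ε / 8 := by
      have e2 : l⁻¹ - 1 = -(l - 1) / l := by field_simp; ring
      rw [e2, abs_div, abs_neg, abs_of_pos (by linarith : 0 < l), div_le_iff₀ (by linarith)]
      have : ε / 8 * (1 / 2) ≤ ε / 8 * l := mul_le_mul_of_nonneg_left hl5 (by positivity)
      linarith
    have i2 : 1 / 2 ≤ l⁻¹ := by linarith [(abs_le.1 i1).1]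
    have k2 := Mil_scale hlX i2
    rw [← e1] at k2
    exact k2.trans (mul_le_mul_of_nonneg_right (by linarith) (Mil_pos _).le)
  obtain ⟨θ, hθ⟩ : ∃ θ, θ = h * (dL h * L - M) := ⟨_, rfl⟩
  have hθb : |θ| ≤ ε / 8 := by
    rw [hθ, abs_mul]
    calc |h| * |dL h * L - M| ≤ (ε / 8) * 1 := mul_le_mul h3 hM (abs_nonneg _) (by positivity)
      _ = _ := mul_one _
  have e3 : exp (-(h * M) + Lm h * L) = exp (-(gam h * L)) * exp θ := by
    rw [← exp_add, hθ]
    congr 1
    unfold gam Lm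
    ring
  unfold Bn
  rw [← hX]
  exact assemble hε0 hε1 (Mil_pos _) (exp_pos _) e3 hθb k1

/-- bounded values of the argument -/
theorem small {H C c : ℝ} {ps : ℕ → Multiset ℝ} (hH : 0 < H) (hT : Tilts H C c ps) {ε : ℝ}
    (hε0 : 0 < ε) (hε1 : ε ≤ 1) : ∃ δ : ℝ, 0 < δ ∧ ∀ h, |h| ≤ δ → ∀ L, 0 < L →
      |h| * √(vN * L) ≤ 2 → |dL h - cN| * √(L / vN) ≤ 3 ∧
      |Tn (dL h) L - (1 - Nc (|dL h - cN| * √(L / vN)))| ≤
        ε * (1 - Nc (|dL h - cN| * √(L / vN))) := by
  have hv := vN_pos'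
  have hc := cN_pos'
  obtain ⟨a, ha⟩ : ∃ a : ℝ, a = 5 / 2 * (cN / vN) := ⟨_, rfl⟩
  have ha0 : 0 < a := by rw [ha]; positivity
  refine ⟨min (min H 1) (ε / (28 * a)), by positivity, ?_⟩
  intro h hh L hL hx2
  have h1 : |h| ≤ H := (hh.trans (min_le_left _ _)).trans (min_le_left _ _)
  have h2 : |h| ≤ 1 := (hh.trans (min_le_left _ _)).trans (min_le_right _ _)
  have h4 : |h| ≤ ε / (28 * a) := hh.trans (min_le_right _ _)
  have hp : 0 ≤ |h| := abs_nonneg h
  obtain ⟨l, hl1, hl2⟩ := ratio hH hT h1 h2 hL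
  rw [← ha] at hl1
  rw [le_div_iff₀ (by positivity)] at h4
  have hl3 : |l - 1| ≤ 1 / 28 := by linarith
  have hl4 := abs_le.1 hl3
  obtain ⟨X, hX⟩ : ∃ X, X = |h| * √(vN * L) := ⟨_, rfl⟩
  have hX0 : 0 ≤ X := by rw [hX]; positivity
  have hXX : X ^ 2 = h ^ 2 * (vN * L) := by
    rw [hX, mul_pow, sq_abs, sq_sqrt (by positivity)]
  rw [← hX] at hx2
  rw [Tn_eq hL, hl2, ← hX]
  have hX4 : X ^ 2 ≤ 4 := by nlinarith
  constructor
  · have : l * X ≤ 29 / 28 * 2 := mul_le_mul (by linarith) hx2 hX0 (by norm_num)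
    linarith
  · unfold Mil
    obtain ⟨q, hq⟩ : ∃ q, q = 1 - Nc (l * X) := ⟨_, rfl⟩
    have hq0 : 0 < q := by rw [hq]; have := Nc_lt_one (l * X); linarith
    rw [← hq]
    obtain ⟨θ, hθ⟩ : ∃ θ, θ = -(gam h * L) + (l * X) ^ 2 / 2 := ⟨_, rfl⟩
    have e1 : exp (-(gam h * L)) * (exp ((l * X) ^ 2 / 2) * q) - q = (exp θ - 1) * q := by
      rw [← mul_assoc, ← exp_add, ← hθ]
      ring
    rw [e1, abs_mul, abs_of_pos hq0]
    apply mul_le_mul_of_nonneg_right _ hq0.le
    have hθb : |θ| ≤ ε / 2 := by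
      have k1 := gam_tay hH hT h1 h2
      have e2 : θ = (l ^ 2 - 1) * (X ^ 2 / 2) - (gam h - vN * h ^ 2 / 2) * L := by
        rw [hθ]
        have : (l * X) ^ 2 / 2 = l ^ 2 * (X ^ 2 / 2) := by ring
        rw [this]
        have e3 : X ^ 2 / 2 = vN * h ^ 2 / 2 * L := by rw [hXX]; ring
        linarith
      have k2 : |(l ^ 2 - 1) * (X ^ 2 / 2)| ≤ 6 * a * |h| := by
        have e4 : l ^ 2 - 1 = (l - 1) * (l + 1) := by ring
        rw [abs_mul, e4, abs_mul, abs_of_nonneg (by positivity : 0 ≤ X ^ 2 / 2),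
          abs_of_nonneg (by linarith : 0 ≤ l + 1)]
        calc |l - 1| * (l + 1) * (X ^ 2 / 2) ≤ (a * |h|) * 3 * 2 := by
              apply mul_le_mul (mul_le_mul hl1 (by linarith) (by linarith) (by positivity))
                (by linarith) (by positivity) (by positivity)
          _ = _ := by ring
      have k3 : |(gam h - vN * h ^ 2 / 2) * L| ≤ 8 * a * |h| := by
        rw [abs_mul, abs_of_pos hL]
        calc |gam h - vN * h ^ 2 / 2| * L ≤ 5 * cN * |h| ^ 3 * L :=
              mul_le_mul_of_nonneg_right k1 hL.le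
          _ = 5 * cN * |h| * (X ^ 2 / vN) := by
              rw [hXX, ← sq_abs h]
              field_simp
          _ ≤ 5 * cN * |h| * (4 / vN) := by
              apply mul_le_mul_of_nonneg_left _ (by positivity)
              exact div_le_div_of_nonneg_right hX4 hv.le
          _ = _ := by rw [ha]; ring
      rw [e2]
      refine (abs_sub _ _).trans ?_
      linarith
    have k0 := Pool.Agent.U154.UT.exp_sub_le θ
    have k5 : exp |θ| ≤ 2 := by
      have h3 : exp |θ| ≤ 1 / (1 - |θ|) := by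
        have h4 := add_one_le_exp (-|θ|)
        have h5 : exp |θ| * exp (-|θ|) = 1 := by rw [← exp_add]; simp
        rw [le_div_iff₀ (by linarith)]
        calc exp |θ| * (1 - |θ|) ≤ exp |θ| * exp (-|θ|) :=
              mul_le_mul_of_nonneg_left (by linarith) (exp_pos _).le
          _ = 1 := h5
      refine h3.trans ?_
      rw [div_le_iff₀ (by linarith)]
      linarith
    have k6 := mul_le_mul_of_nonneg_left k5 (abs_nonneg θ)
    linarith

theorem three_comb {ε P q T : ℝ} (hε0 : 0 < ε) (hε1 : ε ≤ 1) (hq : 0 < q)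
    (h1 : |P - q| ≤ ε / 4 * q) (h2 : |T - q| ≤ ε / 4 * q) : |P - T| ≤ ε * T := by
  have a1 := abs_le.1 h1
  have a2 := abs_le.1 h2
  have h3 : 3 / 4 * q ≤ T := by
    have : ε / 4 * q ≤ 1 / 4 * q := mul_le_mul_of_nonneg_right (by linarith) hq.le
    linarith
  have h5 := mul_le_mul_of_nonneg_left h3 hε0.le
  have h6 : 0 ≤ ε * q := by positivity
  rw [abs_le]
  constructor <;> linarith

theorem two_comb {ε P B T : ℝ} (hε0 : 0 < ε) (hε1 : ε ≤ 1) (hT : 0 < T)
    (h1 : |P - B| ≤ ε / 4 * B) (h2 : |B - T| ≤ ε / 4 * T) : |P - T| ≤ ε * T := by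
  have k := two_step hε0 hε1 hT h1 h2
  have h6 : 0 ≤ ε * T := by positivity
  rw [abs_le]
  constructor <;> linarith [k.1, k.2]

/-- the exact asymptotics of moderate deviations -/
theorem plane_md {ε : ℝ} (hε0 : 0 < ε) (hε1 : ε ≤ 1) : ∃ δ : ℝ, 0 < δ ∧ ∃ n0 : ℕ, ∀ n : ℕ, n0 ≤ n →
    ∀ ν : ℝ, |ν - cN| ≤ δ →
      (cN ≤ ν → |(bondLaw hlf).real {ω | ν * log n ≤ changes n ω} - Tn ν (log n)| ≤
        ε * Tn ν (log n)) ∧
      (ν ≤ cN → |(bondLaw hlf).real {ω | changes n ω ≤ ν * log n} - Tn ν (log n)| ≤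
        ε * Tn ν (log n)) := by
  have hv := vN_pos'
  have hc := cN_pos'
  have hH : (0:ℝ) < 1 := one_pos
  obtain ⟨C0, c0, ps, hT⟩ := tilts hH
  obtain ⟨δ1, hδ1, -, -, hup⟩ := plane_up hH hT (ε := ε / 4) (D := 1) (by linarith) (by linarith)
    zero_le_one
  obtain ⟨δ2, hδ2, -, -, hdn⟩ := plane_down hH hT (ε := ε / 4) (D := 1) (by linarith) (by linarith)
    zero_le_one
  obtain ⟨δ3, hδ3, hbig⟩ := big hH hT (ε := ε / 4) (by linarith) (by linarith)
  obtain ⟨δ4, hδ4, hsm⟩ := small hH hT (ε := ε / 4) (by linarith) (by linarith)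
  obtain ⟨C, hC, hbe⟩ := plane_be_nat
  obtain ⟨d, hd⟩ : ∃ d : ℝ, d = min (min δ1 δ2) (min δ3 δ4) := ⟨_, rfl⟩
  have hd0 : 0 < d := by rw [hd]; positivity
  have hd1 : d ≤ δ1 := by rw [hd]; exact (min_le_left _ _).trans (min_le_left _ _)
  have hd2 : d ≤ δ2 := by rw [hd]; exact (min_le_left _ _).trans (min_le_right _ _)
  have hd3 : d ≤ δ3 := by rw [hd]; exact (min_le_right _ _).trans (min_le_left _ _)
  have hd4 : d ≤ δ4 := by rw [hd]; exact (min_le_right _ _).trans (min_le_right _ _)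
  have g1 : cN < dL d := by rw [← dL_zero]; exact legA.mono hd0
  have g2 : dL (-d) < cN := by rw [← dL_zero]; exact legA.mono (by linarith)
  have q3 : 0 < 1 - Nc 3 := by have := Nc_lt_one 3; linarith
  obtain ⟨r, hr⟩ : ∃ r : ℝ, r = C + 1 / √vN := ⟨_, rfl⟩
  have hsv : 0 < √vN := sqrt_pos.2 hv
  have hr0 : 0 < r := by rw [hr]; positivity
  have hLog : Tendsto (fun n : ℕ => log (n : ℝ)) atTop atTop :=
    tendsto_log_atTop.comp tendsto_natCast_atTop_atTop
  refine ⟨min (min (dL d - cN) (cN - dL (-d))) (cN / 2), by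
    have : 0 < dL d - cN := by linarith
    have : 0 < cN - dL (-d) := by linarith
    positivity, ?_⟩
  obtain ⟨n0, hn0⟩ := eventually_atTop.1 (hup.and (hdn.and ((hLog.eventually_ge_atTop
    ((r / (ε / 4 * (1 - Nc 3))) ^ 2)).and (eventually_ge_atTop 2))))
  refine ⟨n0, ?_⟩
  intro n hn ν hν
  obtain ⟨k1, k2, k3, k4⟩ := hn0 n hn
  have hνa := abs_le.1 (hν.trans ((min_le_left _ _).trans (min_le_left _ _)))
  have hνb := abs_le.1 (hν.trans ((min_le_left _ _).trans (min_le_right _ _)))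
  have hνc := abs_le.1 (hν.trans (min_le_right _ _))
  have hν0 : 0 < ν := by linarith
  obtain ⟨h, hh⟩ := legB.surj ν hν0
  have hhd : |h| ≤ d := by
    rw [abs_le]
    constructor
    · by_contra hle
      have := legA.mono (not_le.1 hle)
      rw [hh] at this
      linarith
    · by_contra hle
      have := legA.mono (not_le.1 hle)
      rw [hh] at this
      linarith
  have hn1 : (1:ℝ) < n := by exact_mod_cast (by omega : 1 < n)
  obtain ⟨L, hLd⟩ : ∃ L, L = log (n:ℝ) := ⟨_, rfl⟩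
  have hL : 0 < L := by rw [hLd]; exact log_pos hn1
  have hsL : 0 < √L := sqrt_pos.2 hL
  have hs : √(vN * L) = √vN * √L := sqrt_mul hv.le _
  have hs0 : 0 < √(vN * L) := by rw [hs]; positivity
  rw [← hLd] at k1 k2 k3 ⊢
  -- the error term
  have herr : r / √L ≤ ε / 4 * (1 - Nc 3) := by
    rw [div_le_iff₀ hsL]
    have h1 : r / (ε / 4 * (1 - Nc 3)) ≤ √L := le_sqrt_of_sq_le k3
    rw [div_le_iff₀ (by positivity)] at h1
    linarith
  have hxe : |ν - cN| * √(L / vN) = |ν * L - cN * L| / √(vN * L) := by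
    have e1 : √(L / vN) = L / √(vN * L) := by
      rw [sqrt_eq_iff_mul_self_eq (by positivity) (by positivity)]
      have : √(vN * L) * √(vN * L) = vN * L := mul_self_sqrt (by positivity)
      symm
      calc L / √(vN * L) * (L / √(vN * L)) = L * L / (√(vN * L) * √(vN * L)) := by ring
        _ = L / vN := by rw [this]; field_simp
    rw [e1, ← sub_mul, abs_mul, abs_of_pos hL]
    ring
  have hT0 := Tn_pos ν L
  constructor
  · intro hcν
    have h0 : 0 ≤ h := by
      by_contra hle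
      have := legA.mono (not_le.1 hle)
      rw [hh, dL_zero] at this
      linarith
    obtain ⟨M, hM⟩ : ∃ M : ℕ, M = ⌈ν * L⌉₊ := ⟨_, rfl⟩
    have hνL : 0 < ν * L := by positivity
    have m1 : ν * L ≤ M := by rw [hM]; exact Nat.le_ceil _
    have m2 : (M:ℝ) < ν * L + 1 := by rw [hM]; exact Nat.ceil_lt_add_one hνL.le
    have e1 : (bondLaw hlf).real {ω | ν * L ≤ changes n ω} = ET n (fun m => ind (M ≤ m)) := by
      rw [← prob_changes n (fun m => M ≤ m)]
      congr 1
      ext ω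
      show ν * L ≤ changes n ω ↔ M ≤ changes n ω
      rw [hM, Nat.ceil_le]
    rw [e1]
    have hMd : |dL h * L - M| ≤ 1 := by
      rw [hh, abs_le]
      constructor <;> linarith
    rcases le_or_gt 2 (|h| * √(vN * L)) with hx | hx
    · have hhp : 0 < h := by
        rcases eq_or_lt_of_le h0 with h00 | h00
        · rw [← h00, abs_zero, zero_mul] at hx
          linarith
        · exact h00
      have ah : |h| = h := abs_of_pos hhp
      have j1 := k1 h hhp (by rw [← ah]; exact hhd.trans hd1) hx M hMd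
      have j2 := hbig h hhp.ne' (hhd.trans hd3) L hL M hMd
      rw [hh] at j2
      exact two_comb hε0 hε1 hT0 j1 j2
    · obtain ⟨j1, j2⟩ := hsm h (hhd.trans hd4) L hL hx.le
      rw [hh] at j1 j2
      obtain ⟨x, hxd⟩ : ∃ x, x = |ν - cN| * √(L / vN) := ⟨_, rfl⟩
      rw [← hxd] at j1 j2
      have hq : 0 < 1 - Nc x := by have := Nc_lt_one x; linarith
      refine three_comb hε0 hε1 hq ?_ j2
      have hM1 : 1 ≤ M := by
        have : (0:ℝ) < M := by linarith
        exact_mod_cast this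
      have e2 : ET n (fun m => ind (M ≤ m)) = 1 - ET n (fun m => ind (m ≤ M - 1)) := by
        have : ET n (fun m => ind (M ≤ m) + ind (m ≤ M - 1)) = 1 := by
          rw [← Pool.Agent.H863R2.NL.ET_const n 1]
          congr 1
          funext m
          by_cases hm : M ≤ m
          · rw [ind_of hm, ind_not_of (by omega), add_zero]
          · rw [ind_not_of hm, ind_of (by omega), zero_add]
        rw [Pool.Agent.H863R2.NL.ET_add] at this
        linarith
      have j3 := hbe n k4 (M - 1)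
      rw [← hLd] at j3
      have j4 := Nc_lip x ((((M - 1 : ℕ) : ℝ) - cN * L) / √(vN * L))
      have hx' : x = (ν * L - cN * L) / √(vN * L) := by
        rw [hxd, hxe, abs_of_nonneg]
        have := mul_le_mul_of_nonneg_right hcν hL.le
        linarith
      have j5 : |(((M - 1 : ℕ) : ℝ) - cN * L) / √(vN * L) - x| ≤ 1 / √vN / √L := by
        have e3 : ((M - 1 : ℕ) : ℝ) = (M:ℝ) - 1 := by
          rw [Nat.cast_sub hM1]
          simp
        rw [hx', ← sub_div, abs_div, abs_of_pos hs0, e3]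
        have e4 : |(M:ℝ) - 1 - cN * L - (ν * L - cN * L)| ≤ 1 := by
          rw [abs_le]
          constructor <;> linarith
        calc |(M:ℝ) - 1 - cN * L - (ν * L - cN * L)| / √(vN * L) ≤ 1 / √(vN * L) :=
              div_le_div_of_nonneg_right e4 hs0.le
          _ = _ := by rw [hs]; field_simp
      have j6 := j4.trans j5
      have j7 : r / √L = C / √L + 1 / √vN / √L := by rw [hr]; ring
      have j8 : Nc x ≤ Nc 3 := Nc_mono j1
      have j9 : ε / 4 * (1 - Nc 3) ≤ ε / 4 * (1 - Nc x) :=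
        mul_le_mul_of_nonneg_left (by linarith) (by positivity)
      rw [e2]
      rw [abs_le] at j3 j6 ⊢
      constructor <;> linarith [j3.1, j3.2, j6.1, j6.2]
  · intro hcν
    have h0 : h ≤ 0 := by
      by_contra hle
      have := legA.mono (not_le.1 hle)
      rw [hh, dL_zero] at this
      linarith
    obtain ⟨M, hM⟩ : ∃ M : ℕ, M = ⌊ν * L⌋₊ := ⟨_, rfl⟩
    have hνL : 0 < ν * L := by positivity
    have m1 : (M:ℝ) ≤ ν * L := by rw [hM]; exact Nat.floor_le hνL.le
    have m2 : ν * L < M + 1 := by rw [hM]; exact Nat.lt_floor_add_one _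
    have e1 : (bondLaw hlf).real {ω | changes n ω ≤ ν * L} = ET n (fun m => ind (m ≤ M)) := by
      rw [← prob_changes n (fun m => m ≤ M)]
      congr 1
      ext ω
      show (changes n ω : ℝ) ≤ ν * L ↔ changes n ω ≤ M
      rw [hM, Nat.le_floor_iff hνL.le]
    rw [e1]
    have hMd : |dL h * L - M| ≤ 1 := by
      rw [hh, abs_le]
      constructor <;> linarith
    rcases le_or_gt 2 (|h| * √(vN * L)) with hx | hx
    · have hhp : h < 0 := by
        rcases eq_or_lt_of_le h0 with h00 | h00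
        · rw [h00, abs_zero, zero_mul] at hx
          linarith
        · exact h00
      have ah : |h| = -h := abs_of_neg hhp
      have j1 := k2 h hhp (by rw [← ah]; exact hhd.trans hd2) hx M hMd
      have j2 := hbig h hhp.ne (hhd.trans hd3) L hL M hMd
      rw [hh] at j2
      exact two_comb hε0 hε1 hT0 j1 j2
    · obtain ⟨j1, j2⟩ := hsm h (hhd.trans hd4) L hL hx.le
      rw [hh] at j1 j2
      obtain ⟨x, hxd⟩ : ∃ x, x = |ν - cN| * √(L / vN) := ⟨_, rfl⟩
      rw [← hxd] at j1 j2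
      have hq : 0 < 1 - Nc x := by have := Nc_lt_one x; linarith
      refine three_comb hε0 hε1 hq ?_ j2
      have j3 := hbe n k4 M
      rw [← hLd] at j3
      have j4 := Nc_lip (-x) (((M : ℝ) - cN * L) / √(vN * L))
      rw [Nc_neg] at j4
      have hx' : x = -(ν * L - cN * L) / √(vN * L) := by
        rw [hxd, hxe, abs_of_nonpos]
        have := mul_le_mul_of_nonneg_right hcν hL.le
        linarith
      have j5 : |((M : ℝ) - cN * L) / √(vN * L) - -x| ≤ 1 / √vN / √L := by
        have e5 : ((M : ℝ) - cN * L) / √(vN * L) - -x = ((M:ℝ) - ν * L) / √(vN * L) := by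
          rw [hx']
          ring
        rw [e5, abs_div, abs_of_pos hs0]
        have e4 : |(M:ℝ) - ν * L| ≤ 1 := by
          rw [abs_le]
          constructor <;> linarith
        calc |(M:ℝ) - ν * L| / √(vN * L) ≤ 1 / √(vN * L) :=
              div_le_div_of_nonneg_right e4 hs0.le
          _ = _ := by rw [hs]; field_simp
      have j6 := j4.trans j5
      have j7 : r / √L = C / √L + 1 / √vN / √L := by rw [hr]; ring
      have j8 : Nc x ≤ Nc 3 := Nc_mono j1
      have j9 : ε / 4 * (1 - Nc 3) ≤ ε / 4 * (1 - Nc x) :=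
        mul_le_mul_of_nonneg_left (by linarith) (by positivity)
      rw [abs_le] at j3 j6 ⊢
      constructor <;> linarith [j3.1, j3.2, j6.1, j6.2]

end Pool.Agent.U154.MD
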