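import Pool.Agent.U154.UT.Pl
import Pool.Agent.U154.BE.WCy
import Pool.Agent.U154.BE.Cbe

/-!
Upper bounds of the lower tails, uniformly in the tilt.
-/

set_option autoImplicit false

namespace Pool.Agent.U154.MD

open MeasureTheory Real Filter Topology H974 Finset H906.Cyl
open Pool.Agent.H863R2.NL (EN ET TT Good IsPs cN vN mu mu_nonneg fN EN_mul EN_const EN_avg Ex_per
  f_le fN_spec TT_mono TT_le_f ET_const ET_le_ET)
open Pool.Agent.H863R2.Cyl (Wd rows)
open Pool.Agent.H450R4.NL (Ph qt tilt_coef)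
open Pool.Agent.W819.EN (dL nuc P2)
open Pool.Agent.U154.UT (T B Tilts lc Zc Zc_eq lc_nonneg geo_le one_sub_exp mx EN_fsum EN_mono_mx wt_ind
  cyl_llt V_bd Lm cN_pos' vN_pos' x0 x0_pos min_le ET_T' Lm_zero Lm_mono legA ok2)
open Pool.Agent.U154.BE (HypW cyl_tailW good_ex)

theorem Lm_neg {η : ℝ} (h : 0 ≤ η) : Lm (-η) ≤ 0 := by
  rw [← Lm_zero]
  exact Lm_mono (by linarith)

/-- the lower tail through the local probabilities -/
theorem down_sum0 (n M : ℕ) (η : ℝ) : EN n (fun m => ind (m ≤ M)) =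
    ∑ j ∈ Finset.range (M + 1), exp (η * M) * (exp (-(η * j)) * lc n (-η) (M - j)) := by
  have e : ∀ j ∈ Finset.range (M + 1), exp (η * M) * (exp (-(η * j)) * lc n (-η) (M - j)) =
      exp (-(-η * ((M - j : ℕ) : ℝ))) * lc n (-η) (M - j) := by
    intro j hj
    have hj' := Finset.mem_range.1 hj
    rw [← mul_assoc, ← exp_add, Nat.cast_sub (by omega)]
    congr 2
    ring
  rw [Finset.sum_congr rfl e]
  unfold lc
  rw [← EN_fsum]
  congr 1
  funext m
  simp only [wt_ind]
  by_cases hM : m ≤ M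
  · have h1 : ∀ j ∈ Finset.range (M + 1), (if m = M - j then (1:ℝ) else 0) =
        if M - m = j then 1 else 0 := by
      intro j hj
      have hj' := Finset.mem_range.1 hj
      by_cases hj2 : m = M - j
      · rw [if_pos hj2, if_pos (by omega)]
      · rw [if_neg hj2, if_neg (by omega)]
    rw [Finset.sum_congr rfl h1, Finset.sum_ite_eq, ind_of hM,
      if_pos (Finset.mem_range.2 (by omega))]
  · rw [ind_not_of hM]
    symm
    apply Finset.sum_eq_zero
    intro j _
    rw [if_neg (by omega)]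

/-- the upper bound of the lower tail on the cylinder -/
theorem cyl_low_le {H C c : ℝ} {ps : ℕ → Multiset ℝ} (hH : 0 < H) (hT : Tilts H C c ps) :
    ∃ K : ℝ, 0 < K ∧ ∀ n : ℕ, 1 ≤ n → ∀ η, 0 ≤ η → η ≤ H → ∀ M : ℕ,
      EN n (fun m => ind (m ≤ M)) ≤
        K * (exp (η * M + Lm (-η) * log n) / (1 + η * √(log n + x0))) := by
  have hC0 := hT.C0
  have hx0 := x0_pos
  obtain ⟨v1, v2, hv1, hv2, hV⟩ := V_bd hT
  have hLog : Tendsto (fun n : ℕ => log (n : ℝ)) atTop atTop :=
    tendsto_log_atTop.comp tendsto_natCast_atTop_atTop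
  have hev := (cyl_llt hT (ε := 1 / 2) (by norm_num)).and (hV.and
    ((hLog.eventually_ge_atTop (max 1 x0)).and (eventually_ge_atTop 1)))
  obtain ⟨n0, hn0⟩ := eventually_atTop.1 hev
  obtain ⟨a, ha⟩ : ∃ a : ℝ, a = exp H * √2 / √v1 := ⟨_, rfl⟩
  have ha0 : 0 < a := by rw [ha]; positivity
  obtain ⟨a', ha'⟩ : ∃ a' : ℝ, a' = H * √(log (n0 + 1 : ℕ) + x0) := ⟨_, rfl⟩
  have ha'0 : 0 ≤ a' := by rw [ha']; positivity
  refine ⟨exp (C * H) * (1 + (a + a')), by positivity, ?_⟩
  intro n hn η h0 hhH M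
  have hh : |-η| ≤ H := by rw [abs_neg, abs_of_nonneg h0]; exact hhH
  have hln : 0 ≤ log (n : ℝ) := log_nonneg (by exact_mod_cast hn)
  obtain ⟨P, hP⟩ : ∃ P, P = EN n (fun m => ind (m ≤ M)) := ⟨_, rfl⟩
  have hZ0 : 0 < Zc n (-η) := by rw [Zc_eq (hT.isps n hn) (-η)]; exact exp_pos _
  have hZ : Zc n (-η) ≤ exp (C * H) * exp (Lm (-η) * log n) := by
    rw [Zc_eq (hT.isps n hn) (-η), ← exp_add]
    apply exp_le_exp.2
    have h1 := (abs_le.1 (hT.lg (-η) hh n hn)).2
    have h2 : C * |-η| ≤ C * H := mul_le_mul_of_nonneg_left hh hC0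
    linarith
  -- Chernoff
  have c1 : P ≤ exp (η * M) * Zc n (-η) := by
    rw [hP]
    unfold Zc
    rw [← EN_mul]
    apply Pool.Agent.H863R2.NL.EN_mono
    intro m
    rw [← exp_nat_mul, ← exp_add]
    by_cases hM : m ≤ M
    · rw [ind_of hM]
      apply one_le_exp
      have : (m : ℝ) ≤ M := by exact_mod_cast hM
      nlinarith
    · rw [ind_not_of hM]
      exact (exp_pos _).le
  obtain ⟨y, hy⟩ : ∃ y, y = P / (exp (η * M) * Zc n (-η)) := ⟨_, rfl⟩
  have hpos : 0 < exp (η * M) * Zc n (-η) := by positivity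
  have hPy : P = y * (exp (η * M) * Zc n (-η)) := by rw [hy]; field_simp
  have hy1 : y ≤ 1 := by rw [hy, div_le_one hpos]; exact c1
  have hP0 : 0 ≤ P := by
    have h1 : EN n (fun _ => (0:ℝ)) ≤ EN n (fun m => ind (m ≤ M)) :=
      Pool.Agent.H863R2.NL.EN_mono fun m => ind_nonneg _
    rw [EN_const n 0] at h1
    rw [hP]
    exact h1
  have hy0 : 0 ≤ y := by rw [hy]; positivity
  have hy2 : y * (η * √(log n + x0)) ≤ a + a' := by
    rcases Nat.lt_or_ge n n0 with hs | hs
    · have h1 : η * √(log n + x0) ≤ a' := by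
        rw [ha']
        apply mul_le_mul hhH _ (sqrt_nonneg _) hH.le
        apply sqrt_le_sqrt
        have : log (n : ℝ) ≤ log ((n0 + 1 : ℕ) : ℝ) :=
          log_le_log (by exact_mod_cast hn) (by exact_mod_cast (by omega : n ≤ n0 + 1))
        linarith
      have h2 : y * (η * √(log n + x0)) ≤ 1 * a' :=
        mul_le_mul hy1 h1 (by positivity) (by norm_num)
      linarith
    · rcases eq_or_lt_of_le h0 with h00 | h00
      · rw [← h00]
        simp only [zero_mul, mul_zero]
        positivity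
      · obtain ⟨k1, k2, k3, k4⟩ := hn0 n hs
        obtain ⟨V, hVd⟩ : ∃ V, V = (((ps n).map (qt (exp (-η)))).map (fun q => q * (1 - q))).sum :=
          ⟨_, rfl⟩
        have k5 := k2 (-η) hh V hVd
        have hL1 : 1 ≤ log (n : ℝ) := (le_max_left _ _).trans k3
        have hL2 : x0 ≤ log (n : ℝ) := (le_max_right _ _).trans k3
        have hVp : 0 < V := lt_of_lt_of_le (by positivity) k5.1
        have hsV : 0 < √V := sqrt_pos.2 hVp
        have k6 : ∀ k, lc n (-η) k ≤ Zc n (-η) * (1 / √V) := by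
          intro k
          have h1 := (abs_le.1 (k1 (-η) hh k _ V rfl hVd)).2
          have h2 : exp (-((((ps n).map (qt (exp (-η)))).sum - k) ^ 2 / (2 * V))) / √(2 * π * V) ≤
              1 / 2 * (1 / √V) := by
            rw [sqrt_mul (by positivity)]
            have h3 : exp (-((((ps n).map (qt (exp (-η)))).sum - k) ^ 2 / (2 * V))) ≤ 1 := by
              apply exp_le_one_iff.2
              have : 0 ≤ (((ps n).map (qt (exp (-η)))).sum - k) ^ 2 / (2 * V) := by positivity
              linarith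
            have h4 : 2 ≤ √(2 * π) := by
              apply le_sqrt_of_sq_le
              linarith [pi_gt_three]
            rw [div_le_iff₀ (by positivity)]
            have e : 1 / 2 * (1 / √V) * (√(2 * π) * √V) = √(2 * π) / 2 := by field_simp
            rw [e]
            linarith
          have h3 : lc n (-η) k / Zc n (-η) ≤ 1 / √V := by
            have : (1:ℝ) / 2 / √V = 1 / 2 * (1 / √V) := by ring
            linarith
          rw [div_le_iff₀ hZ0] at h3
          linarith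
        have k7 : P ≤ exp (η * M) * (1 / (1 - exp (-η)) * (Zc n (-η) * (1 / √V))) := by
          rw [hP, down_sum0 n M η, ← Finset.mul_sum]
          apply mul_le_mul_of_nonneg_left _ (exp_pos _).le
          have h1 : ∑ j ∈ Finset.range (M + 1), exp (-(η * j)) * lc n (-η) (M - j) ≤
              ∑ j ∈ Finset.range (M + 1), exp (-(η * j)) * (Zc n (-η) * (1 / √V)) :=
            Finset.sum_le_sum fun j _ => mul_le_mul_of_nonneg_left (k6 _) (exp_pos _).le
          rw [← Finset.sum_mul] at h1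
          refine h1.trans ?_
          have h2 := geo_le h00 0 (M + 1)
          rw [Nat.cast_zero, mul_zero, neg_zero, exp_zero, ← Finset.range_eq_Ico] at h2
          exact mul_le_mul_of_nonneg_right h2 (by positivity)
        have hd : 0 < 1 - exp (-η) := by
          have := exp_lt_one_iff.2 (show -η < 0 by linarith)
          linarith
        have k8 : y ≤ 1 / √V / (1 - exp (-η)) := by
          rw [hy, div_le_iff₀ hpos]
          refine k7.trans (le_of_eq ?_)
          field_simp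
        have k9 : η * exp (-H) ≤ 1 - exp (-η) := one_sub_exp h0 hhH
        have k10 : √(log n + x0) ≤ √2 / √v1 * √V := by
          have h1 : log n + x0 ≤ 2 / v1 * V := by
            rw [div_mul_eq_mul_div, le_div_iff₀ hv1]
            nlinarith
          calc √(log n + x0) ≤ √(2 / v1 * V) := sqrt_le_sqrt h1
            _ = √2 / √v1 * √V := by rw [sqrt_mul (by positivity), sqrt_div (by norm_num)]
        have k11 : y * (η * √(log n + x0)) ≤ a := by
          have h1 : y * η ≤ exp H / √V := by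
            have h2 : y * (1 - exp (-η)) ≤ 1 / √V := by
              rw [le_div_iff₀ hd] at k8
              exact k8
            have h3 : y * (η * exp (-H)) ≤ 1 / √V :=
              (mul_le_mul_of_nonneg_left k9 hy0).trans h2
            have h4 : exp (-H) * exp H = 1 := by rw [← exp_add]; simp
            calc y * η = y * (η * exp (-H)) * exp H := by
                  rw [mul_assoc, mul_assoc, h4, mul_one]
              _ ≤ 1 / √V * exp H := mul_le_mul_of_nonneg_right h3 (exp_pos _).le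
              _ = _ := by ring
          calc y * (η * √(log n + x0)) = (y * η) * √(log n + x0) := by ring
            _ ≤ exp H / √V * (√2 / √v1 * √V) :=
                mul_le_mul h1 k10 (sqrt_nonneg _) (by positivity)
            _ = a := by rw [ha]; field_simp
        linarith
  have hy3 := min_le (a := a + a') (x := η * √(log n + x0)) (by positivity) (by positivity) hy1 hy2
  rw [← hP, hPy]
  calc y * (exp (η * M) * Zc n (-η)) ≤ (1 + (a + a')) / (1 + η * √(log n + x0)) *
        (exp (η * M) * (exp (C * H) * exp (Lm (-η) * log n))) := by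
        apply mul_le_mul hy3 _ hpos.le (by positivity)
        exact mul_le_mul_of_nonneg_left hZ (exp_pos _).le
    _ = _ := by
        rw [exp_add]
        ring

/-- the profile for the lower tails -/
noncomputable def pf1 (η y : ℝ) : ℝ := exp (Lm (-η) * y) / (1 + η * √(y + x0))

theorem pf1_pos {η : ℝ} (h0 : 0 ≤ η) (y : ℝ) : 0 < pf1 η y := by
  unfold pf1
  positivity

theorem pf1_anti {η : ℝ} (h0 : 0 ≤ η) {x y : ℝ} (hxy : x ≤ y) : pf1 η y ≤ pf1 η x := by
  unfold pf1
  apply div_le_div₀ (exp_pos _).le _ (by positivity)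
  · have := mul_le_mul_of_nonneg_left (sqrt_le_sqrt (show x + x0 ≤ y + x0 by linarith)) h0
    linarith
  · apply exp_le_exp.2
    have := Lm_neg h0
    nlinarith

/-- the factor of one step of the scale -/
noncomputable def cH (H : ℝ) : ℝ := exp (-Lm (-H) * 3) * (1 + H * √3)

theorem cH_pos {H : ℝ} (hH : 0 < H) : 0 < cH H := by unfold cH; positivity

theorem pf1_step {η H : ℝ} (h0 : 0 ≤ η) (hηH : η ≤ H) {x y : ℝ} (hx : 0 ≤ x) (hy : y ≤ x + 3) :
    pf1 η x ≤ cH H * pf1 η y := by
  have hx0 := x0_pos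
  have hH0 : 0 ≤ H := h0.trans hηH
  have h1 := Lm_neg h0
  have h2 : Lm (-H) ≤ Lm (-η) := Lm_mono (by linarith)
  have h3 : pf1 η (x + 3) ≤ pf1 η y := pf1_anti h0 hy
  have h4 : pf1 η x ≤ cH H * pf1 η (x + 3) := by
    unfold pf1 cH
    have hd : 0 < 1 + η * √(x + x0) := by positivity
    have hd' : 0 < 1 + η * √(x + 3 + x0) := by positivity
    have i1 : √(x + 3 + x0) ≤ √(x + x0) + √3 := by
      rw [sqrt_le_left (by positivity), add_sq, sq_sqrt (by linarith), sq_sqrt (by norm_num)]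
      have : 0 ≤ 2 * √(x + x0) * √3 := by positivity
      linarith
    have i2 : 1 + η * √(x + 3 + x0) ≤ (1 + H * √3) * (1 + η * √(x + x0)) := by
      have a1 : η * √(x + 3 + x0) ≤ η * (√(x + x0) + √3) := mul_le_mul_of_nonneg_left i1 h0
      have a2 : η * √3 ≤ H * √3 := mul_le_mul_of_nonneg_right hηH (sqrt_nonneg _)
      have a3 : 0 ≤ H * √3 * (η * √(x + x0)) := by positivity
      nlinarith
    have i3 : exp (Lm (-η) * x) ≤ exp (-Lm (-H) * 3) * exp (Lm (-η) * (x + 3)) := by
      rw [← exp_add]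
      apply exp_le_exp.2
      linarith
    rw [mul_div_assoc', div_le_div_iff₀ hd hd']
    calc exp (Lm (-η) * x) * (1 + η * √(x + 3 + x0)) ≤
        (exp (-Lm (-H) * 3) * exp (Lm (-η) * (x + 3))) * ((1 + H * √3) * (1 + η * √(x + x0))) :=
          mul_le_mul i3 i2 hd'.le (by positivity)
      _ = _ := by ring
  exact h4.trans (mul_le_mul_of_nonneg_left h3 (by unfold cH; positivity))

theorem log4_le {x y : ℝ} (hx : 1 ≤ x) (hy : 1 ≤ y) (h : y ≤ 4 * x) : log y ≤ log x + 3 := by
  have h1 : log y ≤ log 4 + log x := by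
    rw [← log_mul (by norm_num) (by linarith)]
    exact log_le_log (by linarith) h
  have h2 : log (4:ℝ) ≤ 4 - 1 := log_le_sub_one_of_pos (by norm_num)
  linarith

/-- the comparison of the lower tails -/
theorem plane_low (a R κ M : ℕ) (ha : 9 ≤ a) (hR1 : 4 * a ≤ R) (hR2 : 2 * R < 10 * a) :
    ET R (fun m => ind (m ≤ M)) ≤ EN (10 * a) (fun j => ind (j ≤ M + 1 + 10 * κ)) +
      Ex P2 (CE (10 * a) (20 * a)) (fun F => ind (TT (per (10 * a) F) (4 * a) ≤ M) *
        ind (¬ Good (10 * a) (2 * a) κ F)) := by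
  obtain ⟨N, hN⟩ := good_ex a ha
  rw [EN_avg (n := 10 * a) (by omega) (20 * a) (fun j => ind (j ≤ M + 1 + 10 * κ)),
    ← Ex_per (n := 10 * a) (k := R) (M := 20 * a) (by omega) (by omega) (fun m => ind (m ≤ M)),
    ← Ex_add]
  apply Ex_mono ok2
  intro F _
  have t1 : TT (per (10 * a) F) (4 * a) ≤ TT (per (10 * a) F) R := TT_mono hR1
  by_cases hg : Good (10 * a) (2 * a) κ F
  · rw [ind_not_of (show ¬ ¬ Good (10 * a) (2 * a) κ F from fun h => h hg), mul_zero, add_zero]
    apply Pool.Agent.H863R2.NL.CmpAux.avg_ge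
    intro σ τ
    have h3 := f_le fN_spec (by omega) (le_refl (20 * a)) hg σ τ
    by_cases hf : TT (per (10 * a) F) R ≤ M
    · rw [ind_of hf, ind_of (by omega)]
    · rw [ind_not_of hf]
      exact ind_nonneg _
  · rw [ind_of hg, mul_one]
    have h1 : ind (TT (per (10 * a) F) R ≤ M) ≤ ind (TT (per (10 * a) F) (4 * a) ≤ M) := by
      by_cases hf : TT (per (10 * a) F) R ≤ M
      · rw [ind_of hf, ind_of (by omega)]
      · rw [ind_not_of hf]
        exact ind_nonneg _
    have h2 : 0 ≤ ∑ σ, ∑ τ, mu (10 * a) σ * mu (10 * a) τ *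
        ind (fN (rows (2 * (10 * a) - 1) (dn (10 * a) (20 * a) F) (20 * a) σ).1
          (rows (2 * (10 * a) - 1) (up (10 * a) (20 * a) F) (20 * a) τ).1 ≤ M + 1 + 10 * κ) :=
      Finset.sum_nonneg fun σ _ => Finset.sum_nonneg fun τ _ =>
        mul_nonneg (mul_nonneg (mu_nonneg _ _) (mu_nonneg _ _)) (ind_nonneg _)
    linarith

/-- the hypotheses for the lower tails -/
theorem hyp_low {H Q : ℝ} (hH : 0 < H) (hQ : 1 ≤ Q) {η : ℝ} (h0 : 0 ≤ η) (hηH : η ≤ H) {b0 : ℕ}
    {M : ℕ} (h1 : ∀ b, 1 ≤ b → b < b0 → ET (2 * b) (fun m => ind (m ≤ M)) ≤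
      Q * (exp (η * M) * pf1 η (log ((2 * b : ℕ) : ℝ)))) :
    HypW 1 (cH H) (1 / pf1 H (log 48)) b0 (fun _ m => ind (m ≤ M))
      (fun b _ => Q * (exp (η * M) * pf1 η (log ((2 * b : ℕ) : ℝ)))) where
  sft := by
    intro z X m m' h2 h3
    show ind (m ≤ M) ≤ ind (m' ≤ M)
    by_cases h : m ≤ M
    · rw [ind_of h, ind_of (by omega)]
    · rw [ind_not_of h]
      exact ind_nonneg _
  nn := fun z x => ind_nonneg _
  up := by
    intro b z hb hb0
    have h2 := h1 b hb hb0
    rw [ET_T'] at h2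
    exact h2
  A0 := by
    intro b z _
    have := pf1_pos h0 (log ((2 * b : ℕ) : ℝ))
    positivity
  sh := by
    intro b z w _
    rw [one_pow, one_mul]
  inc := by
    intro b z hb
    obtain ⟨b', hb'⟩ : ∃ b', b' = (b + 3) / 4 := ⟨_, rfl⟩
    rw [← hb']
    have c1 : (1:ℝ) ≤ ((2 * b' : ℕ) : ℝ) := by exact_mod_cast (by omega : 1 ≤ 2 * b')
    have c2 : (1:ℝ) ≤ ((2 * b : ℕ) : ℝ) := by exact_mod_cast (by omega : 1 ≤ 2 * b)
    have c3 : ((2 * b : ℕ) : ℝ) ≤ 4 * ((2 * b' : ℕ) : ℝ) := by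
      exact_mod_cast (by omega : 2 * b ≤ 4 * (2 * b'))
    have h2 := pf1_step h0 hηH (log_nonneg c1) (log4_le c1 c2 c3)
    calc Q * (exp (η * M) * pf1 η (log ((2 * b' : ℕ) : ℝ))) ≤
        Q * (exp (η * M) * (cH H * pf1 η (log ((2 * b : ℕ) : ℝ)))) := by
          apply mul_le_mul_of_nonneg_left _ (by linarith)
          exact mul_le_mul_of_nonneg_left h2 (exp_pos _).le
      _ = _ := by ring
  base := by
    intro b z x hb1 hb
    refine (H974.ind_le_one _).trans ?_
    have c2 : (1:ℝ) ≤ ((2 * b : ℕ) : ℝ) := by exact_mod_cast (by omega : 1 ≤ 2 * b)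
    have c4 : ((2 * b : ℕ) : ℝ) ≤ 48 := by exact_mod_cast (by omega : 2 * b ≤ 48)
    have h2 : log ((2 * b : ℕ) : ℝ) ≤ log 48 := log_le_log (by linarith) c4
    have h3 : pf1 η (log 48) ≤ pf1 η (log ((2 * b : ℕ) : ℝ)) := pf1_anti h0 h2
    have h4 : pf1 H (log 48) ≤ pf1 η (log 48) := by
      have hx0 := x0_pos
      unfold pf1
      apply div_le_div₀ (exp_pos _).le _ (by positivity)
      · have := mul_le_mul_of_nonneg_right hηH (sqrt_nonneg (log 48 + x0))
        linarith
      · apply exp_le_exp.2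
        apply mul_le_mul_of_nonneg_right _ (log_nonneg (by norm_num))
        exact Lm_mono (by linarith)
    have hp := pf1_pos hH.le (log 48)
    have h5 : 1 ≤ exp (η * M) := one_le_exp (by positivity)
    have h6 : pf1 H (log 48) ≤ pf1 η (log ((2 * b : ℕ) : ℝ)) := h4.trans h3
    have h7 : pf1 H (log 48) ≤ Q * (exp (η * M) * pf1 η (log ((2 * b : ℕ) : ℝ))) := by
      calc pf1 H (log 48) = 1 * (1 * pf1 H (log 48)) := by ring
        _ ≤ Q * (exp (η * M) * pf1 η (log ((2 * b : ℕ) : ℝ))) := by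
          apply mul_le_mul hQ (mul_le_mul h5 h6 hp.le (exp_pos _).le) (by positivity) (by linarith)
    rw [one_div, ← div_eq_inv_mul, le_div_iff₀ hp, one_mul]
    exact h7

/-- the lower tails in the plane -/
theorem low_plane {H C c : ℝ} {ps : ℕ → Multiset ℝ} (hH : 0 < H) (hT : Tilts H C c ps) :
    ∃ Q : ℝ, 1 ≤ Q ∧ ∀ b, 1 ≤ b → ∀ η, 0 ≤ η → η ≤ H → ∀ M : ℕ,
      ET (2 * b) (fun m => ind (m ≤ M)) ≤
        Q * (exp (η * M) * pf1 η (log ((2 * b : ℕ) : ℝ))) := by
  obtain ⟨C1, hC1, hcyl⟩ := cyl_low_le hH hT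
  have hcH := cH_pos hH
  have hpf := pf1_pos hH.le (log 48)
  obtain ⟨K, hK, htail⟩ := cyl_tailW (t := 1) (c0 := cH H) (K0 := 1 / pf1 H (log 48)) le_rfl hcH
    (by positivity)
  obtain ⟨κ, hκ⟩ : ∃ κ : ℕ, K * (1 / 2) ^ κ * cH H ≤ 1 / 2 := by
    obtain ⟨κ, hκ⟩ := exists_pow_lt_of_lt_one (show 0 < 1 / 2 / (K * cH H) by positivity)
      (show (1 / 2 : ℝ) < 1 by norm_num)
    refine ⟨κ, ?_⟩
    rw [lt_div_iff₀ (by positivity)] at hκ
    linarith
  obtain ⟨Q, hQd⟩ : ∃ Q : ℝ, Q = 1 + 1 / pf1 H (log 48) + 2 * (C1 * exp (H * (1 + 10 * κ))) :=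
    ⟨_, rfl⟩
  have hQ1 : 1 ≤ Q := by
    rw [hQd]
    have : 0 ≤ 1 / pf1 H (log 48) + 2 * (C1 * exp (H * (1 + 10 * κ))) := by positivity
    linarith
  have hQ2 : 1 / pf1 H (log 48) ≤ Q := by
    rw [hQd]
    have : 0 ≤ 2 * (C1 * exp (H * (1 + 10 * κ))) := by positivity
    linarith
  have hQ3 : C1 * exp (H * (1 + 10 * κ)) ≤ Q / 2 := by
    rw [hQd]
    have : 0 ≤ 1 / pf1 H (log 48) := by positivity
    linarith
  refine ⟨Q, hQ1, ?_⟩
  intro b
  induction b using Nat.strong_induction_on with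
  | _ b ih =>
    intro hb1 η h0 hηH M
    have hh := hyp_low hH hQ1 h0 hηH (b0 := b) (M := M) (fun b' h1 h2 => ih b' h2 h1 η h0 hηH M)
    rcases Nat.lt_or_ge b 24 with hb | hb
    · have c2 : (1:ℝ) ≤ ((2 * b : ℕ) : ℝ) := by exact_mod_cast (by omega : 1 ≤ 2 * b)
      have c4 : ((2 * b : ℕ) : ℝ) ≤ 48 := by exact_mod_cast (by omega : 2 * b ≤ 48)
      have h1 : ET (2 * b) (fun m => ind (m ≤ M)) ≤ 1 := by
        rw [← ET_const (2 * b) 1]
        exact ET_le_ET fun m => H974.ind_le_one _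
      refine h1.trans ?_
      have h2 : log ((2 * b : ℕ) : ℝ) ≤ log 48 := log_le_log (by linarith) c4
      have h3 : pf1 η (log 48) ≤ pf1 η (log ((2 * b : ℕ) : ℝ)) := pf1_anti h0 h2
      have h4 : pf1 H (log 48) ≤ pf1 η (log 48) := by
        have hx0 := x0_pos
        unfold pf1
        apply div_le_div₀ (exp_pos _).le _ (by positivity)
        · have := mul_le_mul_of_nonneg_right hηH (sqrt_nonneg (log 48 + x0))
          linarith
        · apply exp_le_exp.2
          apply mul_le_mul_of_nonneg_right _ (log_nonneg (by norm_num))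
          exact Lm_mono (by linarith)
      have h5 : 1 ≤ exp (η * M) := one_le_exp (by positivity)
      have h6 : pf1 H (log 48) ≤ pf1 η (log ((2 * b : ℕ) : ℝ)) := h4.trans h3
      calc (1:ℝ) = 1 / pf1 H (log 48) * (1 * pf1 H (log 48)) := by field_simp
        _ ≤ Q * (exp (η * M) * pf1 η (log ((2 * b : ℕ) : ℝ))) := by
          apply mul_le_mul hQ2 (mul_le_mul h5 h6 hpf.le (exp_pos _).le) (by positivity)
            (by linarith)
    · obtain ⟨a, ha⟩ : ∃ a, a = b / 2 := ⟨_, rfl⟩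
      have ha9 : 9 ≤ a := by omega
      have k0 := plane_low a (2 * b) κ M ha9 (by omega) (by omega)
      have k1 := htail b _ _ hh a κ (κ + 1) 0 ha9 (by omega)
      rw [Nat.Ico_succ_singleton, Finset.sum_singleton] at k1
      have k2 := hcyl (10 * a) (by omega) η h0 hηH (M + 1 + 10 * κ)
      have c1 : (1:ℝ) ≤ ((2 * (2 * a) : ℕ) : ℝ) := by exact_mod_cast (by omega : 1 ≤ 2 * (2 * a))
      have c2 : (1:ℝ) ≤ ((2 * b : ℕ) : ℝ) := by exact_mod_cast (by omega : 1 ≤ 2 * b)
      have c3 : ((2 * b : ℕ) : ℝ) ≤ 4 * ((2 * (2 * a) : ℕ) : ℝ) := by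
        exact_mod_cast (by omega : 2 * b ≤ 4 * (2 * (2 * a)))
      have k3 := pf1_step h0 hηH (log_nonneg c1) (log4_le c1 c2 c3)
      have k4 : pf1 η (log ((10 * a : ℕ) : ℝ)) ≤ pf1 η (log ((2 * b : ℕ) : ℝ)) := by
        apply pf1_anti h0
        apply log_le_log (by linarith)
        exact_mod_cast (by omega : 2 * b ≤ 10 * a)
      obtain ⟨E, hE⟩ : ∃ E, E = exp (η * M) * pf1 η (log ((2 * b : ℕ) : ℝ)) := ⟨_, rfl⟩
      have hE0 : 0 < E := by rw [hE]; exact mul_pos (exp_pos _) (pf1_pos h0 _)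
      have e1 : C1 * (exp (η * ((M + 1 + 10 * κ : ℕ) : ℝ) + Lm (-η) * log ((10 * a : ℕ) : ℝ)) /
          (1 + η * √(log ((10 * a : ℕ) : ℝ) + x0))) ≤ Q / 2 * E := by
        have i1 : exp (η * ((M + 1 + 10 * κ : ℕ) : ℝ) + Lm (-η) * log ((10 * a : ℕ) : ℝ)) /
          (1 + η * √(log ((10 * a : ℕ) : ℝ) + x0)) =
            exp (η * (1 + 10 * κ)) * (exp (η * M) * pf1 η (log ((10 * a : ℕ) : ℝ))) := by
          unfold pf1
          rw [← mul_assoc, ← exp_add, ← mul_div_assoc, ← exp_add]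
          congr 2
          push_cast
          ring
        rw [i1]
        have i2 : exp (η * (1 + 10 * κ)) ≤ exp (H * (1 + 10 * κ)) := by
          apply exp_le_exp.2
          exact mul_le_mul_of_nonneg_right hηH (by positivity)
        calc C1 * (exp (η * (1 + 10 * κ)) * (exp (η * M) * pf1 η (log ((10 * a : ℕ) : ℝ)))) ≤
            C1 * (exp (H * (1 + 10 * κ)) * E) := by
              apply mul_le_mul_of_nonneg_left _ hC1.le
              apply mul_le_mul i2 _ (mul_pos (exp_pos _) (pf1_pos h0 _)).le (exp_pos _).le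
              rw [hE]
              exact mul_le_mul_of_nonneg_left k4 (exp_pos _).le
          _ = (C1 * exp (H * (1 + 10 * κ))) * E := by ring
          _ ≤ _ := mul_le_mul_of_nonneg_right hQ3 hE0.le
      have e2 : K * (1 / 2) ^ κ * (Q * (exp (η * M) * pf1 η (log ((2 * (2 * a) : ℕ) : ℝ)))) ≤
          Q / 2 * E := by
        calc K * (1 / 2) ^ κ * (Q * (exp (η * M) * pf1 η (log ((2 * (2 * a) : ℕ) : ℝ)))) ≤
            K * (1 / 2) ^ κ * (Q * (exp (η * M) * (cH H * pf1 η (log ((2 * b : ℕ) : ℝ))))) := by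
              apply mul_le_mul_of_nonneg_left _ (by positivity)
              apply mul_le_mul_of_nonneg_left _ (by linarith)
              exact mul_le_mul_of_nonneg_left k3 (exp_pos _).le
          _ = (K * (1 / 2) ^ κ * cH H) * (Q * E) := by rw [hE]; ring
          _ ≤ 1 / 2 * (Q * E) := mul_le_mul_of_nonneg_right hκ (by positivity)
          _ = _ := by ring
      rw [← hE]
      linarith

end Pool.Agent.U154.MD
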