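import Pool.Agent.U154.BE.Gs

/-!
The function `exp (x²/2) (1 - Φ x)` and Laplace sums.
-/

set_option autoImplicit false

namespace Pool.Agent.U154.MD

open MeasureTheory Real Filter Topology
open Pool.Agent.U154.BE (Nc ph gd gd_int gd_cont gd_nonneg gd_mono gd_top wd wd_var wd_bd riem
  Nc_high Nc_low Nc_nonneg Nc_le_one Nc_mono Nc_sub ph_nonneg ph_cont)

/-- `exp (x²/2) (1 - Φ x)` -/
noncomputable def Mil (x : ℝ) : ℝ := exp (x ^ 2 / 2) * (1 - Nc x)

theorem ph_gd (x y : ℝ) : exp (-(x * y)) * ph y = exp (x ^ 2 / 2) * gd (-x) 1 y := by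
  unfold ph gd
  rw [mul_one, mul_one, ← mul_div_assoc, ← mul_div_assoc, ← exp_add, ← exp_add]
  congr 2
  ring

theorem int_eq (x b : ℝ) : ∫ y in (0:ℝ)..b, exp (-(x * y)) * ph y =
    exp (x ^ 2 / 2) * (Nc (b + x) - Nc x) := by
  simp_rw [ph_gd]
  rw [intervalIntegral.integral_const_mul, gd_int one_pos]
  simp

theorem Nc_top : Tendsto Nc atTop (𝓝 1) := by
  have h1 : Tendsto (fun y : ℝ => exp (-(y ^ 2 / 2))) atTop (𝓝 0) := by
    apply tendsto_exp_atBot.comp
    apply tendsto_neg_atTop_atBot.comp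
    apply Tendsto.atTop_div_const (by norm_num)
    exact tendsto_pow_atTop (by norm_num)
  have h2 : Tendsto (fun y : ℝ => 1 - exp (-(y ^ 2 / 2))) atTop (𝓝 (1 - 0)) :=
    tendsto_const_nhds.sub h1
  rw [sub_zero] at h2
  refine tendsto_of_tendsto_of_tendsto_of_le_of_le' h2 tendsto_const_nhds ?_ ?_
  · filter_upwards [eventually_ge_atTop 0] with y hy
    have := Nc_high hy
    linarith
  · exact Eventually.of_forall fun y => Nc_le_one y

theorem Mil_lim (x : ℝ) : Tendsto (fun b : ℝ => ∫ y in (0:ℝ)..b, exp (-(x * y)) * ph y) atTop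
    (𝓝 (Mil x)) := by
  simp_rw [int_eq]
  unfold Mil
  apply Tendsto.const_mul
  apply Tendsto.sub_const
  exact Nc_top.comp (tendsto_atTop_add_const_right _ _ tendsto_id)

theorem Mil_anti : Antitone Mil := by
  intro x x' h
  refine le_of_tendsto_of_tendsto (Mil_lim x') (Mil_lim x) ?_
  filter_upwards [eventually_ge_atTop 0] with b hb
  apply intervalIntegral.integral_mono_on hb
  · apply Continuous.intervalIntegrable
    exact (by fun_prop : Continuous fun y : ℝ => exp (-(x' * y))).mul ph_cont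
  · apply Continuous.intervalIntegrable
    exact (by fun_prop : Continuous fun y : ℝ => exp (-(x * y))).mul ph_cont
  · intro y hy
    apply mul_le_mul_of_nonneg_right _ (ph_nonneg y)
    apply exp_le_exp.2
    have := mul_le_mul_of_nonneg_right h hy.1
    linarith

theorem Mil_resc {x : ℝ} (hx : 0 < x) (b : ℝ) :
    x * ∫ y in (0:ℝ)..(b / x), exp (-(x * y)) * ph y = ∫ w in (0:ℝ)..b, exp (-w) * ph (w / x) := by
  have h := intervalIntegral.integral_comp_div (a := 0) (b := b)
    (fun y : ℝ => exp (-(x * y)) * ph y) hx.ne'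
  simp only [smul_eq_mul, zero_div] at h
  rw [← h]
  congr 1
  funext w
  congr 2
  field_simp

theorem xMil_mono {x x' : ℝ} (hx : 0 < x) (h : x ≤ x') : x * Mil x ≤ x' * Mil x' := by
  have hx' : 0 < x' := by linarith
  have l1 : Tendsto (fun b : ℝ => ∫ w in (0:ℝ)..b, exp (-w) * ph (w / x)) atTop
      (𝓝 (x * Mil x)) := by
    simp_rw [← Mil_resc hx]
    apply Tendsto.const_mul
    exact (Mil_lim x).comp (tendsto_id.atTop_div_const hx)
  have l2 : Tendsto (fun b : ℝ => ∫ w in (0:ℝ)..b, exp (-w) * ph (w / x')) atTop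
      (𝓝 (x' * Mil x')) := by
    simp_rw [← Mil_resc hx']
    apply Tendsto.const_mul
    exact (Mil_lim x').comp (tendsto_id.atTop_div_const hx')
  refine le_of_tendsto_of_tendsto l1 l2 ?_
  filter_upwards [eventually_ge_atTop 0] with b hb
  apply intervalIntegral.integral_mono_on hb
  · apply Continuous.intervalIntegrable
    exact (by fun_prop : Continuous fun y : ℝ => exp (-y)).mul (ph_cont.comp (by fun_prop))
  · apply Continuous.intervalIntegrable
    exact (by fun_prop : Continuous fun y : ℝ => exp (-y)).mul (ph_cont.comp (by fun_prop))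
  · intro y hy
    apply mul_le_mul_of_nonneg_left _ (exp_pos _).le
    unfold ph
    apply div_le_div_of_nonneg_right _ (sqrt_nonneg _)
    apply exp_le_exp.2
    have h1 : y / x' ≤ y / x := div_le_div_of_nonneg_left hy.1 hx h
    have h2 : 0 ≤ y / x' := div_nonneg hy.1 hx'.le
    nlinarith

theorem Nc_lt_one (x : ℝ) : Nc x < 1 := by
  have h : 0 < Nc (x + 1) - Nc x := by
    rw [Nc_sub]
    apply intervalIntegral.intervalIntegral_pos_of_pos
    · exact ph_cont.intervalIntegrable _ _
    · intro y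
      unfold ph
      positivity
    · linarith
  have := Nc_le_one (x + 1)
  linarith

theorem Mil_pos (x : ℝ) : 0 < Mil x := by
  unfold Mil
  have := Nc_lt_one x
  exact mul_pos (exp_pos _) (by linarith)

theorem Mil_ge {x : ℝ} (hx : 1 ≤ x) : Mil 1 / x ≤ Mil x := by
  have := xMil_mono one_pos hx
  rw [div_le_iff₀ (by linarith)]
  linarith

/-- small shifts -/
theorem Mil_shift {x t : ℝ} (hx : 1 ≤ x) (ht : |t| ≤ 1 / 2) :
    |Mil (x + t) - Mil x| ≤ 2 * |t| * Mil x := by
  have hM := Mil_pos x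
  have ht' := abs_le.1 ht
  rcases le_total 0 t with h | h
  · have h1 : Mil (x + t) ≤ Mil x := Mil_anti (by linarith)
    have h2 := xMil_mono (show 0 < x by linarith) (show x ≤ x + t by linarith)
    rw [abs_of_nonneg h, abs_of_nonpos (by linarith)]
    have h3 : 0 < Mil (x + t) := Mil_pos _
    nlinarith [mul_nonneg h h3.le, mul_nonneg h hM.le]
  · have h1 : Mil x ≤ Mil (x + t) := Mil_anti (by linarith)
    have h2 := xMil_mono (show 0 < x + t by linarith [ht'.1]) (show x + t ≤ x by linarith)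
    rw [abs_of_nonpos h, abs_of_nonneg (by linarith)]
    have h3 : 0 < Mil (x + t) := Mil_pos _
    have h4 : 1 / 2 ≤ x + t := by linarith [ht'.1]
    -- `(x + t) (Mil (x+t) - Mil x) ≤ -t Mil x`
    have h5 : (x + t) * (Mil (x + t) - Mil x) ≤ -t * Mil x := by nlinarith
    have h6 : 1 / 2 * (Mil (x + t) - Mil x) ≤ (x + t) * (Mil (x + t) - Mil x) :=
      mul_le_mul_of_nonneg_right h4 (by linarith)
    linarith

/-- change of the scale -/
theorem Mil_scale {x l : ℝ} (hx : 0 < x) (hl : 1 / 2 ≤ l) :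
    |Mil (l * x) - Mil x| ≤ 2 * |l - 1| * Mil x := by
  have hM := Mil_pos x
  rcases le_total 1 l with h | h
  · have h1 : Mil (l * x) ≤ Mil x := Mil_anti (by nlinarith)
    have h2 := xMil_mono hx (show x ≤ l * x by nlinarith)
    have h3 : Mil x ≤ l * Mil (l * x) := by
      have : x * Mil x ≤ x * (l * Mil (l * x)) := by linarith
      exact le_of_mul_le_mul_left this hx
    rw [abs_of_nonneg (by linarith : 0 ≤ l - 1), abs_of_nonpos (by linarith)]
    have h4 : 0 < Mil (l * x) := Mil_pos _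
    nlinarith [mul_nonneg (sub_nonneg.2 h) (sub_nonneg.2 h1)]
  · have h1 : Mil x ≤ Mil (l * x) := Mil_anti (by nlinarith)
    have h2 := xMil_mono (show 0 < l * x by positivity) (show l * x ≤ x by nlinarith)
    have h3 : l * Mil (l * x) ≤ Mil x := by
      have : x * (l * Mil (l * x)) ≤ x * Mil x := by linarith
      exact le_of_mul_le_mul_left this hx
    rw [abs_of_nonpos (by linarith : l - 1 ≤ 0), abs_of_nonneg (by linarith)]
    have h5 : l * (Mil (l * x) - Mil x) ≤ (1 - l) * Mil x := by nlinarith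
    have h6 : 1 / 2 * (Mil (l * x) - Mil x) ≤ l * (Mil (l * x) - Mil x) :=
      mul_le_mul_of_nonneg_right hl (by linarith)
    linarith

/-- Laplace sums -/
theorem lap {η V s e : ℝ} (hη : 0 < η) (hη1 : η ≤ 1) (hV : 1 ≤ V) (he : 0 ≤ e) (a : ℕ → ℝ) (N : ℕ)
    (ha : ∀ j < N, |a j - gd (-s) V j| ≤ e / √V) (hz : 0 ≤ N + s)
    (hN : exp (-(η * N) - (N + s) ^ 2 / (2 * V)) ≤ 1 / √V) :
    |∑ j ∈ Finset.range N, exp (-(η * j)) * a j -
      exp (-((s / √V) ^ 2 / 2)) * Mil (η * √V + s / √V)| ≤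
        3 / √V + e * exp 1 / (η * √V) := by
  have hVp : 0 < V := by linarith
  have hq : 0 < √V := sqrt_pos.2 hVp
  have hqq : √V ^ 2 = V := sq_sqrt hVp.le
  obtain ⟨E, hE⟩ : ∃ E : ℝ → ℝ, E = fun y => exp (-(η * max y 0)) := ⟨_, rfl⟩
  have hE0 : ∀ y, 0 < E y := fun y => by rw [hE]; exact exp_pos _
  have hE1 : ∀ y, E y ≤ 1 := fun y => by
    rw [hE]
    apply exp_le_one_iff.2
    have : 0 ≤ η * max y 0 := mul_nonneg hη.le (le_max_right _ _)
    linarith
  have hEm : ∀ x y, x ≤ y → E y ≤ E x := by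
    intro x y hxy
    rw [hE]
    apply exp_le_exp.2
    have := mul_le_mul_of_nonneg_left (max_le_max_right 0 hxy) hη.le
    linarith
  have hEc : Continuous E := by rw [hE]; fun_prop
  have hEj : ∀ y : ℝ, 0 ≤ y → E y = exp (-(η * y)) := by
    intro y hy
    rw [hE]
    simp only
    rw [max_eq_left hy]
  have htop := gd_top (μ := -s) hVp
  have hg1 : ∀ y, gd (-s) V y ≤ gd (-s) V (-s) := fun y =>
    gd_mono hVp (by nlinarith [sq_nonneg (-s - y)])
  -- 1: replace `a`
  have k1 : |∑ j ∈ Finset.range N, exp (-(η * j)) * a j -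
      ∑ j ∈ Finset.range N, E j * gd (-s) V j| ≤ e * exp 1 / (η * √V) := by
    rw [← Finset.sum_sub_distrib]
    refine (Finset.abs_sum_le_sum_abs _ _).trans ?_
    have h1 : ∀ j ∈ Finset.range N, |exp (-(η * j)) * a j - E j * gd (-s) V j| ≤
        exp (-η) ^ j * (e / √V) := by
      intro j hj
      rw [hEj j (Nat.cast_nonneg j), ← mul_sub, abs_mul, abs_of_pos (exp_pos _)]
      have h2 : exp (-(η * (j:ℝ))) = exp (-η) ^ j := by
        rw [← exp_nat_mul]
        congr 1
        ring
      rw [h2]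
      exact mul_le_mul_of_nonneg_left (ha j (Finset.mem_range.1 hj)) (by positivity)
    refine (Finset.sum_le_sum h1).trans ?_
    rw [← Finset.sum_mul]
    have h3 : exp (-η) < 1 := exp_lt_one_iff.2 (by linarith)
    have h4 : ∑ j ∈ Finset.range N, exp (-η) ^ j ≤ 1 / (1 - exp (-η)) := by
      rw [le_div_iff₀ (by linarith), geom_sum_mul_neg]
      have : 0 ≤ exp (-η) ^ N := by positivity
      linarith
    have h5 : η * exp (-1) ≤ 1 - exp (-η) := by
      have i2 := add_one_le_exp η
      have i3 : exp (-η) * exp η = 1 := by rw [← exp_add]; simp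
      have i4 : exp (-η) * (η + 1) ≤ 1 :=
        calc exp (-η) * (η + 1) ≤ exp (-η) * exp η := mul_le_mul_of_nonneg_left i2 (exp_pos _).le
          _ = 1 := i3
      have i5 : exp (-1) ≤ exp (-η) := exp_le_exp.2 (by linarith)
      have i6 : η * exp (-1) ≤ η * exp (-η) := mul_le_mul_of_nonneg_left i5 hη.le
      linarith
    have h6 : 1 / (1 - exp (-η)) ≤ exp 1 / η := by
      rw [div_le_div_iff₀ (by linarith) hη]
      have i1 : exp 1 * exp (-1) = 1 := by rw [← exp_add]; simp
      have i2 := mul_le_mul_of_nonneg_left h5 (exp_pos 1).le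
      have i3 : exp 1 * (η * exp (-1)) = η := by
        calc exp 1 * (η * exp (-1)) = η * (exp 1 * exp (-1)) := by ring
          _ = η := by rw [i1, mul_one]
      linarith
    calc (∑ j ∈ Finset.range N, exp (-η) ^ j) * (e / √V) ≤ exp 1 / η * (e / √V) :=
          mul_le_mul_of_nonneg_right (h4.trans h6) (by positivity)
      _ = _ := by field_simp
  -- 2: the integral
  have k2 := riem (g := fun y => E y * gd (-s) V y)
    (W := fun y => wd (-s) V y - gd (-s) V (-s) * E y) (hEc.mul (gd_cont _ _)) (fun x y hxy => by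
      have h1 := wd_var (μ := -s) hVp x y hxy
      have h2 : E x * gd (-s) V x - E y * gd (-s) V y =
          E x * (gd (-s) V x - gd (-s) V y) + (E x - E y) * gd (-s) V y := by ring
      rw [h2]
      refine (abs_add_le _ _).trans ?_
      rw [abs_mul, abs_mul, abs_of_pos (hE0 x), abs_of_nonneg (gd_nonneg _ _ y),
        abs_of_nonneg (sub_nonneg.2 (hEm x y hxy))]
      have h3 : E x * |gd (-s) V x - gd (-s) V y| ≤ 1 * |gd (-s) V x - gd (-s) V y| :=
        mul_le_mul_of_nonneg_right (hE1 x) (abs_nonneg _)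
      have h4 : (E x - E y) * gd (-s) V y ≤ (E x - E y) * gd (-s) V (-s) :=
        mul_le_mul_of_nonneg_left (hg1 y) (sub_nonneg.2 (hEm x y hxy))
      nlinarith) N
  have k2' : |∑ j ∈ Finset.range N, E j * gd (-s) V j - ∫ y in (0:ℝ)..N, E y * gd (-s) V y| ≤
      2 / √V := by
    refine k2.trans ?_
    have h1 := wd_bd (μ := -s) hVp 0 (N:ℝ)
    have h2 := gd_nonneg (-s) V (-s)
    have h3 : gd (-s) V (-s) * E 0 ≤ gd (-s) V (-s) * 1 := mul_le_mul_of_nonneg_left (hE1 0) h2
    have h4 : 0 ≤ gd (-s) V (-s) * E N := mul_nonneg h2 (hE0 _).le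
    have h5 : 2 / √V = 1 / √V + 1 / √V := by ring
    have h6 : 0 ≤ 1 / √V := by positivity
    rw [h5]
    linarith
  -- 3: the value of the integral
  obtain ⟨x, hx⟩ : ∃ x, x = η * √V + s / √V := ⟨_, rfl⟩
  have k3 : ∫ y in (0:ℝ)..N, E y * gd (-s) V y =
      exp (-((s / √V) ^ 2 / 2)) * (exp (x ^ 2 / 2) * (Nc ((N + s + η * V) / √V) - Nc x)) := by
    have h1 : ∫ y in (0:ℝ)..N, E y * gd (-s) V y =
        ∫ y in (0:ℝ)..N, (exp (-((s / √V) ^ 2 / 2)) * exp (x ^ 2 / 2)) * gd (-s - η * V) V y := by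
      apply intervalIntegral.integral_congr
      intro y hy
      rw [Set.uIcc_of_le (Nat.cast_nonneg N)] at hy
      simp only
      rw [hEj y hy.1]
      unfold gd
      rw [← mul_div_assoc, ← mul_div_assoc, ← exp_add, ← exp_add, ← exp_add]
      congr 2
      have e1 : (s / √V) ^ 2 / 2 = s ^ 2 / (2 * V) := by
        rw [div_pow, hqq]
        field_simp
      have e2 : x ^ 2 / 2 = η ^ 2 * V / 2 + η * s + s ^ 2 / (2 * V) := by
        have : x ^ 2 = η ^ 2 * √V ^ 2 + 2 * η * s * (√V / √V) + s ^ 2 / √V ^ 2 := by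
          rw [hx]
          field_simp
          ring
        rw [this, hqq, div_self hq.ne']
        field_simp
        try ring
      rw [e1, e2]
      field_simp
      ring
    rw [h1, intervalIntegral.integral_const_mul, gd_int hVp, mul_assoc]
    have e3 : ((N:ℝ) - (-s - η * V)) / √V = (N + s + η * V) / √V := by ring
    have e4 : (0 - (-s - η * V)) / √V = x := by
      rw [hx]
      have : (0 - (-s - η * V)) / √V = s / √V + η * (V / √V) := by ring
      rw [this, div_sqrt]
      ring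
    rw [e3, e4]
  -- 4: the tail
  have hy : 0 ≤ (N + s + η * V) / √V := by positivity
  have k4 : |(∫ y in (0:ℝ)..N, E y * gd (-s) V y) -
      exp (-((s / √V) ^ 2 / 2)) * Mil x| ≤ 1 / √V := by
    rw [k3]
    unfold Mil
    have e1 : exp (-((s / √V) ^ 2 / 2)) * (exp (x ^ 2 / 2) * (Nc ((N + s + η * V) / √V) - Nc x)) -
        exp (-((s / √V) ^ 2 / 2)) * (exp (x ^ 2 / 2) * (1 - Nc x)) =
        -(exp (-((s / √V) ^ 2 / 2)) * exp (x ^ 2 / 2) * (1 - Nc ((N + s + η * V) / √V))) := by
      ring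
    rw [e1, abs_neg, abs_of_nonneg (mul_nonneg (by positivity)
      (by have := Nc_le_one ((N + s + η * V) / √V); linarith))]
    refine le_trans ?_ hN
    calc exp (-((s / √V) ^ 2 / 2)) * exp (x ^ 2 / 2) * (1 - Nc ((N + s + η * V) / √V)) ≤
        exp (-((s / √V) ^ 2 / 2)) * exp (x ^ 2 / 2) *
          exp (-(((N + s + η * V) / √V) ^ 2 / 2)) :=
          mul_le_mul_of_nonneg_left (Nc_high hy) (by positivity)
      _ = exp (-(η * N) - (N + s) ^ 2 / (2 * V)) := by
          rw [← exp_add, ← exp_add]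
          congr 1
          have e2 : (s / √V) ^ 2 / 2 = s ^ 2 / (2 * V) := by
            rw [div_pow, hqq]
            field_simp
          have e3 : x ^ 2 / 2 = η ^ 2 * V / 2 + η * s + s ^ 2 / (2 * V) := by
            have : x ^ 2 = η ^ 2 * √V ^ 2 + 2 * η * s * (√V / √V) + s ^ 2 / √V ^ 2 := by
              rw [hx]
              field_simp
              ring
            rw [this, hqq, div_self hq.ne']
            field_simp
            try ring
          rw [e2, e3, div_pow, hqq]
          field_simp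
          ring
  rw [hx] at k4
  have e5 : 3 / √V = 2 / √V + 1 / √V := by ring
  rw [e5]
  rw [abs_le] at k1 k2' k4 ⊢
  constructor <;> linarith [k1.1, k1.2, k2'.1, k2'.2, k4.1, k4.2]

end Pool.Agent.U154.MD
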