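import Pool.Agent.U154.MD.Cex
import Pool.Agent.U154.MD.Low

/-!
Exact asymptotics of the tails in the plane in the range of moderate deviations.
-/

set_option autoImplicit false

namespace Pool.Agent.U154.MD

open MeasureTheory Real Filter Topology H974 Finset H906.Cyl
open Pool.Agent.H863R2.NL (EN ET TT Good IsPs cN vN EN_mono ET_mono ET_le EN_le ET_const ET_le_ET)
open Pool.Agent.H450R4.NL (Ph qt tilt_coef)
open Pool.Agent.W819.EN (dL nuc P2)
open Pool.Agent.U154.UT (Tilts Lm cN_pos' vN_pos' x0 x0_pos Lm_zero Lm_mono Lm_ge legA ok2 pf0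
  pf0_pos pf0_mono pf_eq0 pl_up hyp_ind cyl_up)
open Pool.Agent.U154.BE (HypW cyl_tailW)

/-- the main term -/
noncomputable def Bn (h m L : ℝ) : ℝ := exp (-(h * m) + Lm h * L) * Mil (|h| * √(vN * L))

theorem Bn_pos (h m L : ℝ) : 0 < Bn h m L := mul_pos (exp_pos _) (Mil_pos _)

theorem Lm_abs {h : ℝ} (hh : |h| ≤ 1) : |Lm h| ≤ dL 1 * |h| := by
  have hd1 := Pool.Agent.W933.EN.dL_pos legA 1
  have hd := Pool.Agent.W933.EN.dL_pos legA h
  have h1 := abs_le.1 hh
  have hm : dL h ≤ dL 1 := legA.mono.monotone h1.2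
  have hc : cN ≤ dL 1 := by
    rw [← Pool.Agent.U154.UT.dL_zero]
    exact legA.mono.monotone zero_le_one
  have hcp := cN_pos'
  rcases le_total 0 h with h0 | h0
  · have h2 : 0 ≤ Lm h := (mul_nonneg hcp.le h0).trans (Lm_ge h)
    have h3 := Pool.Agent.W933.EN.conv legA h 0
    rw [legA.zero] at h3
    have h4 : Lm h ≤ dL h * h := by
      unfold Lm
      linarith
    rw [abs_of_nonneg h2, abs_of_nonneg h0]
    exact h4.trans (mul_le_mul_of_nonneg_right hm h0)
  · have h2 : Lm h ≤ 0 := by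
      rw [← Lm_zero]
      exact Lm_mono h0
    have h3 := Lm_ge h
    rw [abs_of_nonpos h2, abs_of_nonpos h0]
    have := mul_le_mul_of_nonneg_right hc (show 0 ≤ -h by linarith)
    linarith

/-- a change of the scale by a bounded factor and a bounded shift of the level -/
theorem Bn_shift {ε D : ℝ} (hε0 : 0 < ε) (hε1 : ε ≤ 1) (hD : 0 ≤ D) : ∃ δ L0 : ℝ, 0 < δ ∧ 1 ≤ L0 ∧
    ∀ L, L0 ≤ L → ∀ L', L ≤ L' → L' ≤ L + 3 → ∀ h, h ≠ 0 → |h| ≤ δ → ∀ m m' : ℝ, |m' - m| ≤ D →
      |Bn h m' L' - Bn h m L| ≤ ε * Bn h m L := by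
  have hv := vN_pos'
  have hd1 := Pool.Agent.W933.EN.dL_pos legA 1
  refine ⟨min 1 (ε / (8 * (D + 3 * dL 1))), max 1 (24 / ε), by positivity, le_max_left _ _, ?_⟩
  intro L hL L' h1 h2 h hne hh m m' hm
  have hL1 : 1 ≤ L := (le_max_left _ _).trans hL
  have hL2 : 24 / ε ≤ L := (le_max_right _ _).trans hL
  have hh1 : |h| ≤ 1 := hh.trans (min_le_left _ _)
  have hh2 : |h| ≤ ε / (8 * (D + 3 * dL 1)) := hh.trans (min_le_right _ _)
  have ha : 0 < |h| := abs_pos.2 hne
  have hLp : 0 < L := by linarith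
  have hL'p : 0 < L' := by linarith
  obtain ⟨l, hl⟩ : ∃ l, l = √(L' / L) := ⟨_, rfl⟩
  have hl0 : 0 ≤ l := by rw [hl]; exact sqrt_nonneg _
  have hl2 : l ^ 2 = L' / L := by rw [hl]; exact sq_sqrt (by positivity)
  have hl3 : l ^ 2 ≤ 1 + ε / 8 := by
    rw [hl2, div_le_iff₀ hLp]
    rw [div_le_iff₀ hε0] at hL2
    linarith
  have hl4 : 1 ≤ l := by
    rw [hl, one_le_sqrt, one_le_div hLp]
    exact h1
  have hl5 : |l - 1| ≤ ε / 8 := by
    rw [abs_of_nonneg (by linarith)]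
    nlinarith
  have e1 : |h| * √(vN * L') = l * (|h| * √(vN * L)) := by
    have : √(vN * L') = l * √(vN * L) := by
      rw [hl, ← sqrt_mul (by positivity)]
      congr 1
      field_simp
    rw [this]
    ring
  have hx : 0 < |h| * √(vN * L) := by positivity
  have k1 := Mil_scale (x := |h| * √(vN * L)) hx (by linarith : 1 / 2 ≤ l)
  obtain ⟨θ, hθ⟩ : ∃ θ, θ = -(h * (m' - m)) + Lm h * (L' - L) := ⟨_, rfl⟩
  have hθb : |θ| ≤ ε / 8 := by
    have a1 : |h * (m' - m)| ≤ |h| * D := by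
      rw [abs_mul]
      exact mul_le_mul_of_nonneg_left hm ha.le
    have a2 : |Lm h * (L' - L)| ≤ dL 1 * |h| * 3 := by
      rw [abs_mul, abs_of_nonneg (by linarith : 0 ≤ L' - L)]
      exact mul_le_mul (Lm_abs hh1) (by linarith) (by linarith) (by positivity)
    have a3 : |θ| ≤ |h * (m' - m)| + |Lm h * (L' - L)| := by
      rw [hθ]
      refine (abs_add_le _ _).trans ?_
      rw [abs_neg]
    rw [le_div_iff₀ (by positivity)] at hh2
    linarith
  unfold Bn
  rw [e1]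
  refine assemble hε0 hε1 (Mil_pos _) (exp_pos _) (θ := θ) ?_ hθb ?_
  · rw [← exp_add, hθ]
    congr 1
    ring
  · refine k1.trans (mul_le_mul_of_nonneg_right (by linarith) (Mil_pos _).le)

/-- the error terms -/
theorem err_le {h L : ℝ} (hL : 0 < L) (h2 : 2 ≤ |h| * √(vN * L)) :
    1 / (1 + |h| * √(L + x0)) ≤ √vN / Mil 1 * Mil (|h| * √(vN * L)) := by
  have hv := vN_pos'
  have hx0 := x0_pos
  have hm := Mil_pos 1
  have k1 := Mil_ge (show 1 ≤ |h| * √(vN * L) by linarith)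
  have hsv : 0 < √vN := sqrt_pos.2 hv
  have e1 : √(vN * L) = √vN * √L := sqrt_mul hv.le _
  have hx : 0 < |h| * √(vN * L) := by linarith
  have hhL : 0 < |h| * √L := by
    rw [e1] at hx
    have h3 : |h| * (√vN * √L) = √vN * (|h| * √L) := by ring
    rw [h3] at hx
    exact (mul_pos_iff_of_pos_left hsv).1 hx
  calc 1 / (1 + |h| * √(L + x0)) ≤ 1 / (|h| * √L) := by
        apply one_div_le_one_div_of_le hhL
        have := mul_le_mul_of_nonneg_left (sqrt_le_sqrt (show L ≤ L + x0 by linarith))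
          (abs_nonneg h)
        linarith
    _ = √vN / Mil 1 * (Mil 1 / (|h| * √(vN * L))) := by
        rw [e1]
        field_simp
    _ ≤ _ := mul_le_mul_of_nonneg_left k1 (by positivity)

theorem log_cmp3 {n n' : ℕ} (hn : 1 ≤ n) (h1 : n ≤ n') (h2 : n' ≤ 3 * n) :
    log (n:ℝ) ≤ log (n':ℝ) ∧ log (n':ℝ) ≤ log (n:ℝ) + 3 := by
  have c1 : (1:ℝ) ≤ n := by exact_mod_cast hn
  have c2 : (n:ℝ) ≤ n' := by exact_mod_cast h1
  have c3 : (n':ℝ) ≤ 3 * n := by exact_mod_cast h2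
  exact ⟨log_le_log (by linarith) c2, log4_le c1 (by linarith) (by linarith)⟩

theorem two_step {ε x y z : ℝ} (hε0 : 0 < ε) (hε1 : ε ≤ 1) (hz : 0 < z)
    (h1 : |x - y| ≤ ε / 4 * y) (h2 : |y - z| ≤ ε / 4 * z) :
    x ≤ z + 5 / 8 * ε * z ∧ z - 5 / 8 * ε * z ≤ x := by
  have a1 := abs_le.1 h1
  have a2 := abs_le.1 h2
  have h3 : 0 ≤ ε * z := by positivity
  have h4 : y ≤ 5 / 4 * z := by
    have : ε / 4 * z ≤ 1 / 4 * z := mul_le_mul_of_nonneg_right (by linarith) hz.le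
    linarith
  have h5 : ε / 4 * y ≤ ε / 4 * (5 / 4 * z) := mul_le_mul_of_nonneg_left h4 (by positivity)
  constructor <;> linarith

/-- the upper tails in the plane -/
theorem plane_up {H C c : ℝ} {ps : ℕ → Multiset ℝ} (hH : 0 < H) (hT : Tilts H C c ps) {ε D : ℝ}
    (hε0 : 0 < ε) (hε1 : ε ≤ 1) (hD : 0 ≤ D) : ∃ δ : ℝ, 0 < δ ∧ δ ≤ H ∧ δ ≤ 1 ∧
    ∀ᶠ n : ℕ in atTop, ∀ h : ℝ, 0 < h → h ≤ δ → 2 ≤ |h| * √(vN * log n) → ∀ M : ℕ,
      |dL h * log n - M| ≤ D →
      |ET n (fun m => ind (M ≤ m)) - Bn h M (log n)| ≤ ε * Bn h M (log n) := by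
  have hv := vN_pos'
  have hm1 := Mil_pos 1
  obtain ⟨K, hK, hup⟩ := pl_up hH hT
  obtain ⟨K', hK', h3⟩ := cyl_up (t := exp H) (one_le_exp hH.le)
  obtain ⟨κ, hκ⟩ : ∃ κ : ℕ, K' * (1 / 2) ^ κ * K * (√vN / Mil 1) ≤ ε / 4 := by
    obtain ⟨κ, hκ⟩ := exists_pow_lt_of_lt_one
      (show 0 < ε / 4 / (K' * K * (√vN / Mil 1)) by positivity)
      (show (1 / 2 : ℝ) < 1 by norm_num)
    refine ⟨κ, ?_⟩
    rw [lt_div_iff₀ (by positivity)] at hκ
    linarith
  have hd1 := Pool.Agent.W933.EN.dL_pos legA 1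
  obtain ⟨D', hD'⟩ : ∃ D' : ℝ, D' = D + dL 1 * 3 + (1 + 10 * κ) := ⟨_, rfl⟩
  have hD'0 : 0 ≤ D' := by rw [hD']; positivity
  obtain ⟨δ1, hδ1, hδ1H, hδ11, hcy⟩ := cyl_ex hH hT (ε := ε / 4) (D := D') (by linarith)
    (by linarith) hD'0
  obtain ⟨δ2, L0, hδ2, hL0, hsh⟩ := Bn_shift (ε := ε / 4) (D := D') (by linarith) (by linarith)
    hD'0
  obtain ⟨n1, hn1⟩ := eventually_atTop.1 hcy
  have hLog : Tendsto (fun n : ℕ => log (n : ℝ)) atTop atTop :=
    tendsto_log_atTop.comp tendsto_natCast_atTop_atTop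
  refine ⟨min δ1 δ2, by positivity, (min_le_left _ _).trans hδ1H, (min_le_left _ _).trans hδ11, ?_⟩
  filter_upwards [hLog.eventually_ge_atTop L0, eventually_ge_atTop (max 36 n1)] with n hL hn
  have hn36 : 36 ≤ n := (le_max_left _ _).trans hn
  have hnn1 : n1 ≤ n := (le_max_right _ _).trans hn
  intro h h0 hhδ h2 M hM
  have ah : |h| = h := abs_of_pos h0
  have hh1 : |h| ≤ δ1 := by rw [ah]; exact hhδ.trans (min_le_left _ _)
  have hh2 : |h| ≤ δ2 := by rw [ah]; exact hhδ.trans (min_le_right _ _)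
  have hhH : h ≤ H := by rw [← ah]; exact hh1.trans hδ1H
  have hh11 : h ≤ 1 := by rw [← ah]; exact hh1.trans hδ11
  have hLp : 0 < log (n:ℝ) := by linarith
  have hmono : Monotone (fun m : ℕ => ind (M ≤ m)) := by
    intro a b hab
    show ind (M ≤ a) ≤ ind (M ≤ b)
    by_cases hM : M ≤ a
    · rw [ind_of hM, ind_of (hM.trans hab)]
    · rw [ind_not_of hM]; exact ind_nonneg _
  have hB := Bn_pos h M (log n)
  -- the two comparisons
  have cmp : ∀ n' : ℕ, n ≤ n' → n' ≤ 3 * n → ∀ M' : ℕ, M ≤ M' → M' ≤ M + (1 + 10 * κ) →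
      EN n' (fun m => ind (M' ≤ m)) ≤ Bn h M (log n) + 5 / 8 * ε * Bn h M (log n) ∧
      Bn h M (log n) - 5 / 8 * ε * Bn h M (log n) ≤ EN n' (fun m => ind (M' ≤ m)) := by
    intro n' i1 i2 M' j1 j2
    obtain ⟨l1, l2⟩ := log_cmp3 (by omega) i1 i2
    have x2 : 2 ≤ |h| * √(vN * log n') := by
      refine h2.trans (mul_le_mul_of_nonneg_left (sqrt_le_sqrt ?_) (abs_nonneg h))
      exact mul_le_mul_of_nonneg_left l1 hv.le
    have hdl : dL h ≤ dL 1 := legA.mono.monotone hh11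
    have hdp := Pool.Agent.W933.EN.dL_pos legA h
    have c1 : (M:ℝ) ≤ M' := by exact_mod_cast j1
    have c2 : (M':ℝ) ≤ M + (1 + 10 * κ) := by exact_mod_cast j2
    have y1 : dL h * log n ≤ dL h * log n' := mul_le_mul_of_nonneg_left l1 hdp.le
    have y2 : dL h * log n' ≤ dL h * log n + dL 1 * 3 := by
      have i3 : dL h * (log n' - log n) ≤ dL 1 * 3 :=
        mul_le_mul hdl (by linarith) (by linarith) hd1.le
      linarith
    have hMb := abs_le.1 hM
    have hκ0 : (0:ℝ) ≤ κ := Nat.cast_nonneg κ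
    have hd3 : 0 ≤ dL 1 * 3 := by positivity
    have x3 : |dL h * log n' - M'| ≤ D' := by
      rw [hD', abs_le]
      constructor <;> linarith
    have k1 := (hn1 n' (by omega) h hh1 x2 M' x3).1 h0
    have k2 := hsh (log n) hL (log n') l1 l2 h h0.ne' hh2 M M' (by
      rw [hD', abs_le]
      constructor <;> linarith)
    exact two_step hε0 hε1 hB k1 k2
  obtain ⟨a, ha⟩ : ∃ a, a = n / 4 := ⟨_, rfl⟩
  have ha9 : 9 ≤ a := by omega
  rw [abs_le]
  constructor
  · -- lower bound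
    obtain ⟨M', hM'⟩ : ∃ M', M' = M + (1 + 10 * κ) := ⟨_, rfl⟩
    have k1 := h3 _ _ (hyp_ind hH hK hup h0.le hhH M') a κ 0 ha9
    simp only [add_zero, zero_add] at k1
    have e1 : ET (4 * a) (fun m => ind (M' ≤ m + (1 + 10 * κ))) =
        ET (4 * a) (fun m => ind (M ≤ m)) := by
      congr 1
      funext m
      exact ind_congr (by omega)
    rw [e1, show 2 * (2 * a) = 4 * a by ring] at k1
    have k2 : ET (4 * a) (fun m => ind (M ≤ m)) ≤ ET n (fun m => ind (M ≤ m)) :=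
      ET_mono (by omega) hmono
    have k3 := (cmp (10 * a) (by omega) (by omega) M' (by omega) (by omega)).2
    have k4 : K' * (1 / 2) ^ κ * (K * (exp (h * ((0:ℕ):ℝ)) * exp (-(h * M')) *
        pf0 h (log ((4 * a : ℕ) : ℝ)))) ≤ ε / 4 * Bn h M (log n) := by
      have i1 : pf0 h (log ((4 * a : ℕ) : ℝ)) ≤ pf0 h (log n) := by
        apply pf0_mono h0.le
        · apply log_nonneg
          exact_mod_cast (by omega : 1 ≤ 4 * a)
        · apply log_le_log
          · exact_mod_cast (by omega : 0 < 4 * a)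
          · exact_mod_cast (by omega : 4 * a ≤ n)
      have i2 : exp (-(h * M')) ≤ exp (-(h * M)) := by
        apply exp_le_exp.2
        have : (M:ℝ) ≤ M' := by exact_mod_cast (by omega : M ≤ M')
        have := mul_le_mul_of_nonneg_left this h0.le
        linarith
      have i3 : exp (-(h * M)) * pf0 h (log n) ≤ √vN / Mil 1 * Bn h M (log n) := by
        rw [← pf_eq0]
        have := err_le hLp h2
        rw [ah] at this
        unfold Bn
        rw [ah]
        calc exp (-(h * M) + Lm h * log n) / (1 + h * √(log n + x0)) =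
            exp (-(h * M) + Lm h * log n) * (1 / (1 + h * √(log n + x0))) := by ring
          _ ≤ exp (-(h * M) + Lm h * log n) * (√vN / Mil 1 * Mil (h * √(vN * log n))) :=
              mul_le_mul_of_nonneg_left this (exp_pos _).le
          _ = _ := by ring
      have p0 := pf0_pos h0.le (log ((4 * a : ℕ) : ℝ))
      have i4 : exp (h * ((0:ℕ):ℝ)) * exp (-(h * M')) * pf0 h (log ((4 * a : ℕ) : ℝ)) ≤
          √vN / Mil 1 * Bn h M (log n) := by
        refine le_trans ?_ i3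
        rw [Nat.cast_zero, mul_zero, exp_zero, one_mul]
        exact mul_le_mul i2 i1 p0.le (exp_pos _).le
      calc K' * (1 / 2) ^ κ * (K * (exp (h * ((0:ℕ):ℝ)) * exp (-(h * M')) *
            pf0 h (log ((4 * a : ℕ) : ℝ)))) ≤
          K' * (1 / 2) ^ κ * (K * (√vN / Mil 1 * Bn h M (log n))) := by
            apply mul_le_mul_of_nonneg_left _ (by positivity)
            exact mul_le_mul_of_nonneg_left i4 hK.le
        _ = (K' * (1 / 2) ^ κ * K * (√vN / Mil 1)) * Bn h M (log n) := by ring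
        _ ≤ _ := mul_le_mul_of_nonneg_right hκ hB.le
    have h5 : 0 ≤ ε * Bn h M (log n) := by positivity
    linarith
  · -- upper bound
    have k1 := ET_le (n := 2 * n + 1) (k := n) (by omega) hmono
    have k2 := (cmp (2 * n + 1) (by omega) (by omega) M le_rfl (by omega)).1
    have h5 : 0 ≤ ε * Bn h M (log n) := by positivity
    linarith

/-- the lower tails in the plane -/
theorem plane_down {H C c : ℝ} {ps : ℕ → Multiset ℝ} (hH : 0 < H) (hT : Tilts H C c ps) {ε D : ℝ}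
    (hε0 : 0 < ε) (hε1 : ε ≤ 1) (hD : 0 ≤ D) : ∃ δ : ℝ, 0 < δ ∧ δ ≤ H ∧ δ ≤ 1 ∧
    ∀ᶠ n : ℕ in atTop, ∀ h : ℝ, h < 0 → -h ≤ δ → 2 ≤ |h| * √(vN * log n) → ∀ M : ℕ,
      |dL h * log n - M| ≤ D →
      |ET n (fun m => ind (m ≤ M)) - Bn h M (log n)| ≤ ε * Bn h M (log n) := by
  have hv := vN_pos'
  have hm1 := Mil_pos 1
  have hcH := cH_pos hH
  have hpf := pf1_pos hH.le (log 48)
  obtain ⟨Q, hQ, hlow⟩ := low_plane hH hT
  have hQ0 : 0 < Q := by linarith
  obtain ⟨K, hK, htail⟩ := cyl_tailW (t := 1) (c0 := cH H) (K0 := 1 / pf1 H (log 48)) le_rfl hcH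
    (by positivity)
  obtain ⟨κ, hκ⟩ : ∃ κ : ℕ, K * (1 / 2) ^ κ * (Q * cH H) * (√vN / Mil 1) ≤ ε / 4 := by
    obtain ⟨κ, hκ⟩ := exists_pow_lt_of_lt_one
      (show 0 < ε / 4 / (K * (Q * cH H) * (√vN / Mil 1)) by positivity)
      (show (1 / 2 : ℝ) < 1 by norm_num)
    refine ⟨κ, ?_⟩
    rw [lt_div_iff₀ (by positivity)] at hκ
    linarith
  have hd1 := Pool.Agent.W933.EN.dL_pos legA 1
  obtain ⟨D', hD'⟩ : ∃ D' : ℝ, D' = D + dL 1 * 3 + (1 + 10 * κ) := ⟨_, rfl⟩
  have hD'0 : 0 ≤ D' := by rw [hD']; positivity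
  obtain ⟨δ1, hδ1, hδ1H, hδ11, hcy⟩ := cyl_ex hH hT (ε := ε / 4) (D := D') (by linarith)
    (by linarith) hD'0
  obtain ⟨δ2, L0, hδ2, hL0, hsh⟩ := Bn_shift (ε := ε / 4) (D := D') (by linarith) (by linarith)
    hD'0
  obtain ⟨n1, hn1⟩ := eventually_atTop.1 hcy
  have hLog : Tendsto (fun n : ℕ => log (n : ℝ)) atTop atTop :=
    tendsto_log_atTop.comp tendsto_natCast_atTop_atTop
  refine ⟨min δ1 δ2, by positivity, (min_le_left _ _).trans hδ1H, (min_le_left _ _).trans hδ11, ?_⟩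
  filter_upwards [hLog.eventually_ge_atTop L0, eventually_ge_atTop (max 36 n1)] with n hL hn
  have hn36 : 36 ≤ n := (le_max_left _ _).trans hn
  have hnn1 : n1 ≤ n := (le_max_right _ _).trans hn
  intro h h0 hhδ h2 M hM
  have ah : |h| = -h := abs_of_neg h0
  have hh1 : |h| ≤ δ1 := by rw [ah]; exact hhδ.trans (min_le_left _ _)
  have hh2 : |h| ≤ δ2 := by rw [ah]; exact hhδ.trans (min_le_right _ _)
  have hhH : -h ≤ H := by rw [← ah]; exact hh1.trans hδ1H
  have hLp : 0 < log (n:ℝ) := by linarith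
  have hanti : Antitone (fun m : ℕ => ind (m ≤ M)) := by
    intro a b hab
    show ind (b ≤ M) ≤ ind (a ≤ M)
    by_cases hM : b ≤ M
    · rw [ind_of hM, ind_of (hab.trans hM)]
    · rw [ind_not_of hM]; exact ind_nonneg _
  have hB := Bn_pos h M (log n)
  -- the two comparisons
  have cmp : ∀ n' : ℕ, n ≤ n' → n' ≤ 3 * n → ∀ M' : ℕ, M ≤ M' → M' ≤ M + (1 + 10 * κ) →
      EN n' (fun m => ind (m ≤ M')) ≤ Bn h M (log n) + 5 / 8 * ε * Bn h M (log n) ∧
      Bn h M (log n) - 5 / 8 * ε * Bn h M (log n) ≤ EN n' (fun m => ind (m ≤ M')) := by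
    intro n' i1 i2 M' j1 j2
    obtain ⟨l1, l2⟩ := log_cmp3 (by omega) i1 i2
    have x2 : 2 ≤ |h| * √(vN * log n') := by
      refine h2.trans (mul_le_mul_of_nonneg_left (sqrt_le_sqrt ?_) (abs_nonneg h))
      exact mul_le_mul_of_nonneg_left l1 hv.le
    have hdl : dL h ≤ dL 1 := legA.mono.monotone (by linarith)
    have hdp := Pool.Agent.W933.EN.dL_pos legA h
    have c1 : (M:ℝ) ≤ M' := by exact_mod_cast j1
    have c2 : (M':ℝ) ≤ M + (1 + 10 * κ) := by exact_mod_cast j2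
    have y1 : dL h * log n ≤ dL h * log n' := mul_le_mul_of_nonneg_left l1 hdp.le
    have y2 : dL h * log n' ≤ dL h * log n + dL 1 * 3 := by
      have i3 : dL h * (log n' - log n) ≤ dL 1 * 3 :=
        mul_le_mul hdl (by linarith) (by linarith) hd1.le
      linarith
    have hMb := abs_le.1 hM
    have hκ0 : (0:ℝ) ≤ κ := Nat.cast_nonneg κ
    have hd3 : 0 ≤ dL 1 * 3 := by positivity
    have x3 : |dL h * log n' - M'| ≤ D' := by
      rw [hD', abs_le]
      constructor <;> linarith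
    have k1 := (hn1 n' (by omega) h hh1 x2 M' x3).2 h0
    have k2 := hsh (log n) hL (log n') l1 l2 h h0.ne hh2 M M' (by
      rw [hD', abs_le]
      constructor <;> linarith)
    exact two_step hε0 hε1 hB k1 k2
  obtain ⟨a, ha⟩ : ∃ a, a = n / 4 := ⟨_, rfl⟩
  have ha9 : 9 ≤ a := by omega
  rw [abs_le]
  constructor
  · -- lower bound
    have k1 := EN_le (n := 2 * n + 1) (k := n) (by omega) hanti
    have k2 := (cmp (2 * n + 1) (by omega) (by omega) M le_rfl (by omega)).2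
    have h5 : 0 ≤ ε * Bn h M (log n) := by positivity
    linarith
  · -- upper bound
    have k0 := plane_low a n κ M ha9 (by omega) (by omega)
    have k3 := (cmp (10 * a) (by omega) (by omega) (M + 1 + 10 * κ) (by omega) (by omega)).1
    have hη : 0 ≤ -h := by linarith
    have hh := hyp_low hH hQ hη hhH (b0 := 2 * a + 1) (M := M)
      (fun b h1 _ => hlow b h1 (-h) hη hhH M)
    have k1 := htail (2 * a + 1) _ _ hh a κ (κ + 1) 0 ha9 (by omega)
    rw [Nat.Ico_succ_singleton, Finset.sum_singleton, show 2 * (2 * a) = 4 * a by ring] at k1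
    have k4 : K * (1 / 2) ^ κ * (Q * (exp (-h * M) * pf1 (-h) (log ((4 * a : ℕ) : ℝ)))) ≤
        ε / 4 * Bn h M (log n) := by
      have c1 : (1:ℝ) ≤ ((4 * a : ℕ) : ℝ) := by exact_mod_cast (by omega : 1 ≤ 4 * a)
      have c2 : (1:ℝ) ≤ n := by exact_mod_cast (by omega : 1 ≤ n)
      have c3 : (n:ℝ) ≤ 4 * ((4 * a : ℕ) : ℝ) := by
        exact_mod_cast (by omega : n ≤ 4 * (4 * a))
      have i1 := pf1_step hη hhH (log_nonneg c1) (log4_le c1 c2 c3)
      have i3 : exp (-h * M) * pf1 (-h) (log n) ≤ √vN / Mil 1 * Bn h M (log n) := by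
        have := err_le hLp h2
        rw [ah] at this
        unfold Bn pf1
        rw [ah, neg_neg]
        calc exp (-h * M) * (exp (Lm h * log n) / (1 + -h * √(log n + x0))) =
            (exp (-h * M) * exp (Lm h * log n)) * (1 / (1 + -h * √(log n + x0))) := by ring
          _ = exp (-(h * M) + Lm h * log n) * (1 / (1 + -h * √(log n + x0))) := by
              rw [← exp_add]
              congr 2
              ring
          _ ≤ exp (-(h * M) + Lm h * log n) * (√vN / Mil 1 * Mil (-h * √(vN * log n))) :=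
              mul_le_mul_of_nonneg_left this (exp_pos _).le
          _ = _ := by ring
      calc K * (1 / 2) ^ κ * (Q * (exp (-h * M) * pf1 (-h) (log ((4 * a : ℕ) : ℝ)))) ≤
          K * (1 / 2) ^ κ * (Q * (exp (-h * M) * (cH H * pf1 (-h) (log n)))) := by
            apply mul_le_mul_of_nonneg_left _ (by positivity)
            apply mul_le_mul_of_nonneg_left _ hQ0.le
            exact mul_le_mul_of_nonneg_left i1 (exp_pos _).le
        _ = K * (1 / 2) ^ κ * (Q * cH H) * (exp (-h * M) * pf1 (-h) (log n)) := by ring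
        _ ≤ K * (1 / 2) ^ κ * (Q * cH H) * (√vN / Mil 1 * Bn h M (log n)) :=
            mul_le_mul_of_nonneg_left i3 (by positivity)
        _ = (K * (1 / 2) ^ κ * (Q * cH H) * (√vN / Mil 1)) * Bn h M (log n) := by ring
        _ ≤ _ := mul_le_mul_of_nonneg_right hκ hB.le
    have h5 : 0 ≤ ε * Bn h M (log n) := by positivity
    linarith

end Pool.Agent.U154.MD
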